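import Mathlib

set_option autoImplicit false

/-!
# Ages of finite relational structures: definitions
-/

namespace Pool.Agent.Lib.MP_4fb322_lc_h70

open Set

variable {I : Type} {ar : I → ℕ}

/-- Finite relational structures of signature `ar` on the sets `Fin n`. -/
abbrev Str (ar : I → ℕ) : Type := Σ n : ℕ, (i : I) → Set (Fin (ar i) → Fin n)

/-- `f` is an embedding of `A` into `B`. -/
def IsEmb (A B : Str ar) (f : Fin A.1 → Fin B.1) : Prop :=
  Function.Injective f ∧ ∀ (i : I) (t : Fin (ar i) → Fin A.1), t ∈ A.2 i ↔ f ∘ t ∈ B.2 i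

/-- `A` embeds into `B`. -/
def Emb (A B : Str ar) : Prop := ∃ f : Fin A.1 → Fin B.1, IsEmb A B f

/-- An age: nonempty, closed downwards under embeddability, directed. -/
def IsAge (𝒜 : Set (Str ar)) : Prop :=
  𝒜.Nonempty ∧ (∀ A B : Str ar, B ∈ 𝒜 → Emb A B → A ∈ 𝒜) ∧
    ∀ A ∈ 𝒜, ∀ B ∈ 𝒜, ∃ C ∈ 𝒜, Emb A C ∧ Emb B C

/-- `𝒜` has no infinite antichain. -/
def NoAntichain (𝒜 : Set (Str ar)) : Prop :=
  ¬ ∃ s : ℕ → Str ar, (∀ k, s k ∈ 𝒜) ∧ ∀ m k, m ≠ k → ¬ Emb (s m) (s k)

/-- The set of all ages contained in `𝒜` is well-founded under inclusion. -/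
def SubagesWF (𝒜 : Set (Str ar)) : Prop :=
  ¬ ∃ D : ℕ → Set (Str ar), (∀ k, D k ⊆ 𝒜 ∧ IsAge (D k)) ∧ ∀ k, D (k + 1) ⊂ D k

/-- `C` with the two-colouring `c` is a `q`-sum of its two colour classes: whether a tuple
meeting both classes is related depends only on its colour pattern, through `q`. -/
def Split (q : (i : I) → Set (Fin (ar i) → Bool)) (C : Str ar) (c : Fin C.1 → Bool) : Prop :=
  ∀ (i : I) (t : Fin (ar i) → Fin C.1), (∃ j k, c (t j) ≠ c (t k)) →
    (t ∈ C.2 i ↔ c ∘ t ∈ q i)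

/-- closed under `q`-sums -/
def SumClosed (q : (i : I) → Set (Fin (ar i) → Bool)) (𝒜 : Set (Str ar)) : Prop :=
  ∀ A ∈ 𝒜, ∀ B ∈ 𝒜, ∃ C ∈ 𝒜, ∃ (c : Fin C.1 → Bool) (f : Fin A.1 → Fin C.1)
    (g : Fin B.1 → Fin C.1), Split q C c ∧ IsEmb A C f ∧ IsEmb B C g ∧
      (∀ x, c (f x) = false) ∧ ∀ x, c (g x) = true

/-- every finite colouring of the vertices of some large member contains a monochromatic copy
of any prescribed member -/
def VertexRamsey (𝒜 : Set (Str ar)) : Prop :=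
  ∀ (κ : Type), Finite κ → ∀ G ∈ 𝒜, ∃ H ∈ 𝒜, ∀ c : Fin H.1 → κ,
    ∃ f : Fin G.1 → Fin H.1, IsEmb G H f ∧ ∀ x y, c (f x) = c (f y)

/-- The age of a structure `M` on a set `V`: the finite structures isomorphic to an induced
finite substructure of `M`. -/
def ageOf {V : Type} (M : (i : I) → Set (Fin (ar i) → V)) : Set (Str ar) :=
  {A | ∃ f : Fin A.1 → V, Function.Injective f ∧
    ∀ (i : I) (t : Fin (ar i) → Fin A.1), t ∈ A.2 i ↔ f ∘ t ∈ M i}

/-- `M` is locally finite relative to the default values `δ`: every point `v` shares only with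
finitely many other points a tuple whose membership in a relation differs from the default
value of this relation. For `δ = False` this says that the Gaifman graph is locally finite. -/
def LocallyFinite {V : Type} (M : (i : I) → Set (Fin (ar i) → V)) (δ : I → Prop) : Prop :=
  ∀ v : V, {w : V | w ≠ v ∧ ∃ (i : I) (t : Fin (ar i) → V), (∃ j, t j = v) ∧ (∃ k, t k = w) ∧
    ¬ (t ∈ M i ↔ δ i)}.Finite

end Pool.Agent.Lib.MP_4fb322_lc_h70
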