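import Mathlib
import Pool.Agent.Lib.MP_4fb322_lc_h70.Defs

set_option autoImplicit false

/-!
# Ages of finite relational structures: sub-ages, sums, decompositions
-/

namespace Pool.Agent.Lib.MP_4fb322_lc_h70

open Set

variable {I : Type} {ar : I → ℕ}

theorem IsEmb.refl (A : Str ar) : IsEmb A A id := ⟨Function.injective_id, fun _ _ => Iff.rfl⟩

theorem IsEmb.trans {A B C : Str ar} {f : Fin A.1 → Fin B.1} {g : Fin B.1 → Fin C.1}
    (hf : IsEmb A B f) (hg : IsEmb B C g) : IsEmb A C (g ∘ f) :=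
  ⟨hg.1.comp hf.1, fun i t => by rw [hf.2 i t, hg.2 i (f ∘ t)]; rfl⟩

theorem Emb.refl (A : Str ar) : Emb A A := ⟨id, IsEmb.refl A⟩

theorem Emb.trans {A B C : Str ar} (h1 : Emb A B) (h2 : Emb B C) : Emb A C := by
  obtain ⟨f, hf⟩ := h1
  obtain ⟨g, hg⟩ := h2
  exact ⟨g ∘ f, hf.trans hg⟩

/-- induced substructure on a finite set of vertices -/
def ind (H : Str ar) (X : Finset (Fin H.1)) : Str ar :=
  ⟨X.card, fun i => {t | (X.orderEmbOfFin rfl) ∘ t ∈ H.2 i}⟩

def indMap (H : Str ar) (X : Finset (Fin H.1)) : Fin (ind H X).1 → Fin H.1 :=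
  X.orderEmbOfFin rfl

theorem indMap_emb (H : Str ar) (X : Finset (Fin H.1)) : IsEmb (ind H X) H (indMap H X) :=
  ⟨(X.orderEmbOfFin rfl).injective, fun _ _ => Iff.rfl⟩

theorem indMap_mem (H : Str ar) (X : Finset (Fin H.1)) (y : Fin (ind H X).1) :
    indMap H X y ∈ X := Finset.orderEmbOfFin_mem X rfl y

theorem exists_indMap (H : Str ar) (X : Finset (Fin H.1)) {x : Fin H.1} (hx : x ∈ X) :
    ∃ y, indMap H X y = x := by
  have := Finset.range_orderEmbOfFin X (rfl : X.card = X.card)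
  have h2 : x ∈ Set.range (X.orderEmbOfFin rfl) := by rw [this]; exact hx
  exact h2

/-- an embedding with values in `X` factors through `ind H X` -/
theorem emb_ind {A H : Str ar} {X : Finset (Fin H.1)} {f : Fin A.1 → Fin H.1}
    (hf : IsEmb A H f) (hX : ∀ x, f x ∈ X) :
    ∃ g, IsEmb A (ind H X) g ∧ ∀ x, indMap H X (g x) = f x := by
  choose g hg using fun x => exists_indMap H X (hX x)
  refine ⟨g, ⟨?_, ?_⟩, hg⟩
  · intro x y hxy
    apply hf.1
    rw [← hg x, ← hg y, hxy]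
  · intro i t
    rw [hf.2 i t, (indMap_emb H X).2 i (g ∘ t)]
    have : f ∘ t = indMap H X ∘ g ∘ t := by
      funext j
      simp [hg]
    rw [this]

theorem size_le {A B : Str ar} (h : Emb A B) : A.1 ≤ B.1 := by
  obtain ⟨f, hf⟩ := h
  simpa using Fintype.card_le_of_injective f hf.1

/-! ## Finite colourings with parts in prescribed classes -/

section Colour

variable {κ : Type}

/-- every structure embedding into a colour class of `(H, c)` lies in the slice of `P` -/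
def Good (P : Set (κ × Str ar)) (H : Str ar) (c : Fin H.1 → κ) : Prop :=
  ∀ (A : Str ar) (f : Fin A.1 → Fin H.1), IsEmb A H f → ∀ b, (∀ x, c (f x) = b) → (b, A) ∈ P

def Valid (𝒜 : Set (Str ar)) (P : Set (κ × Str ar)) : Prop :=
  (∀ (b : κ) (A B : Str ar), (b, B) ∈ P → Emb A B → (b, A) ∈ P) ∧
    ∀ H ∈ 𝒜, ∃ c : Fin H.1 → κ, Good P H c

theorem Good.restrict {P : Set (κ × Str ar)} {H H' : Str ar} {c : Fin H.1 → κ}
    (h : Good P H c) {f : Fin H'.1 → Fin H.1} (hf : IsEmb H' H f) : Good P H' (c ∘ f) := by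
  intro A g hg b hb
  exact h A (f ∘ g) (hg.trans hf) b hb

theorem Good.mono {P R : Set (κ × Str ar)} {H : Str ar} {c : Fin H.1 → κ}
    (h : Good P H c) (hs : P ⊆ R) : Good R H c :=
  fun A f hf b hb => hs (h A f hf b hb)

/-- finitely many members of a nonempty chain have a common lower bound in the chain -/
theorem chain_lower {α : Type} {c : Set (Set α)} (hc : IsChain (· ⊆ ·) c) (hne : c.Nonempty)
    {ι : Type} [Finite ι] (F : ι → Set α) (hF : ∀ i, F i ∈ c) : ∃ m ∈ c, ∀ i, m ⊆ F i := by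
  have := Fintype.ofFinite ι
  classical
  have key : ∀ s : Finset ι, ∃ m ∈ c, ∀ i ∈ s, m ⊆ F i := by
    intro s
    induction s using Finset.induction_on with
    | empty =>
      obtain ⟨m, hm⟩ := hne
      exact ⟨m, hm, by simp⟩
    | insert a s _ ih =>
      obtain ⟨m, hm, hs⟩ := ih
      rcases hc.total hm (hF a) with h | h
      · refine ⟨m, hm, fun i hi => ?_⟩
        rcases Finset.mem_insert.1 hi with rfl | hi
        · exact h
        · exact hs i hi
      · refine ⟨F a, hF a, fun i hi => ?_⟩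
        rcases Finset.mem_insert.1 hi with rfl | hi
        · exact subset_rfl
        · exact h.trans (hs i hi)
  obtain ⟨m, hm, h⟩ := key Finset.univ
  exact ⟨m, hm, fun i => h i (Finset.mem_univ i)⟩

theorem exists_minimal_valid [Finite κ] {𝒜 : Set (Str ar)} {P₀ : Set (κ × Str ar)}
    (h₀ : Valid 𝒜 P₀) : ∃ P ⊆ P₀, Minimal (fun R => Valid 𝒜 R) P := by
  refine zorn_superset_nonempty {R : Set (κ × Str ar) | Valid 𝒜 R} ?_ P₀ h₀
  intro c hcS hc hne
  refine ⟨⋂₀ c, ⟨?_, ?_⟩, fun s hs => Set.sInter_subset_of_mem hs⟩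
  · intro b A B hB hAB
    rw [Set.mem_sInter] at hB ⊢
    exact fun R hR => (hcS hR).1 b A B (hB R hR) hAB
  · intro H hH
    by_contra hno
    push Not at hno
    have h1 : ∀ χ : Fin H.1 → κ, ∃ R ∈ c, ¬ Good R H χ := by
      intro χ
      by_contra h2
      push Not at h2
      apply hno χ
      intro A f hf b hb
      rw [Set.mem_sInter]
      exact fun R hR => h2 R hR A f hf b hb
    choose F hFc hFb using h1
    obtain ⟨m, hm, hmF⟩ := chain_lower hc hne F hFc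
    obtain ⟨χ, hχ⟩ := (hcS hm).2 H hH
    exact hFb χ (hχ.mono (hmF χ))

theorem slice_isAge {𝒜 : Set (Str ar)} (h𝒜 : IsAge 𝒜) {P : Set (κ × Str ar)}
    (hm : Minimal (fun R => Valid 𝒜 R) P) (b : κ) : IsAge {A : Str ar | (b, A) ∈ P} := by
  classical
  have hV := hm.prop
  refine ⟨?_, fun A B hB hAB => hV.1 b A B hB hAB, ?_⟩
  · obtain ⟨H, hH⟩ := h𝒜.1
    obtain ⟨c, hc⟩ := hV.2 H hH
    refine ⟨ind H ∅, ?_⟩
    refine hc (ind H ∅) (indMap H ∅) (indMap_emb H ∅) b ?_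
    intro x
    have : x.1 < 0 := x.2
    omega
  · intro K₁ h₁ K₂ h₂
    by_contra hno
    push Not at hno
    -- one of the two smaller systems is valid
    set P₁ : Set (κ × Str ar) := P \ {p | p.1 = b ∧ Emb K₁ p.2} with hP₁
    set P₂ : Set (κ × Str ar) := P \ {p | p.1 = b ∧ Emb K₂ p.2} with hP₂
    have her : ∀ K : Str ar, ∀ (b' : κ) (A B : Str ar),
        (b', B) ∈ P \ {p : κ × Str ar | p.1 = b ∧ Emb K p.2} → Emb A B →
        (b', A) ∈ P \ {p : κ × Str ar | p.1 = b ∧ Emb K p.2} := by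
      rintro K b' A B ⟨hB, hB2⟩ hAB
      refine ⟨hV.1 b' A B hB hAB, ?_⟩
      rintro ⟨hb, hK⟩
      exact hB2 ⟨hb, Emb.trans hK hAB⟩
    have hor : (∀ H ∈ 𝒜, ∃ c : Fin H.1 → κ, Good P₁ H c) ∨
        (∀ H ∈ 𝒜, ∃ c : Fin H.1 → κ, Good P₂ H c) := by
      by_contra hcon
      push Not at hcon
      obtain ⟨⟨H₁, hH₁, hb₁⟩, H₂, hH₂, hb₂⟩ := hcon
      obtain ⟨H, hH, ⟨f₁, hf₁⟩, f₂, hf₂⟩ := h𝒜.2.2 H₁ hH₁ H₂ hH₂
      obtain ⟨c, hc⟩ := hV.2 H hH
      have aux : ∀ (K H' : Str ar) (f' : Fin H'.1 → Fin H.1), IsEmb H' H f' →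
          ¬ Good (P \ {p : κ × Str ar | p.1 = b ∧ Emb K p.2}) H' (c ∘ f') →
          ∃ g : Fin K.1 → Fin H.1, IsEmb K H g ∧ ∀ x, c (g x) = b := by
        intro K H' f' hf' hbad
        unfold Good at hbad
        push Not at hbad
        obtain ⟨A, f, hf, b', hb', hA⟩ := hbad
        have hAP : (b', A) ∈ P := hc.restrict hf' A f hf b' hb'
        have h3 : b' = b ∧ Emb K A := by
          by_contra h4
          exact hA ⟨hAP, h4⟩
        obtain ⟨rfl, g, hg⟩ := h3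
        refine ⟨f' ∘ f ∘ g, (hg.trans hf).trans hf', ?_⟩
        intro x
        exact hb' (g x)
      obtain ⟨g₁, hg₁, hg₁b⟩ := aux K₁ H₁ f₁ hf₁ (hb₁ _)
      obtain ⟨g₂, hg₂, hg₂b⟩ := aux K₂ H₂ f₂ hf₂ (hb₂ _)
      set X : Finset (Fin H.1) := Finset.univ.filter (fun x => c x = b) with hX
      have hC : (b, ind H X) ∈ P := by
        refine hc (ind H X) (indMap H X) (indMap_emb H X) b ?_
        intro x
        exact (Finset.mem_filter.1 (indMap_mem H X x)).2
      obtain ⟨e₁, he₁, _⟩ := emb_ind (X := X) hg₁ (fun x => by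
        rw [hX, Finset.mem_filter]; exact ⟨Finset.mem_univ _, hg₁b x⟩)
      obtain ⟨e₂, he₂, _⟩ := emb_ind (X := X) hg₂ (fun x => by
        rw [hX, Finset.mem_filter]; exact ⟨Finset.mem_univ _, hg₂b x⟩)
      exact hno (ind H X) hC ⟨e₁, he₁⟩ ⟨e₂, he₂⟩
    rcases hor with h | h
    · have hle := hm.le_of_le (y := P₁) ⟨her K₁, h⟩ Set.sdiff_subset
      exact (hle h₁).2 ⟨rfl, Emb.refl K₁⟩
    · have hle := hm.le_of_le (y := P₂) ⟨her K₂, h⟩ Set.sdiff_subset
      exact (hle h₂).2 ⟨rfl, Emb.refl K₂⟩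

end Colour

/-! ## Sums -/

section Sums

/-- indecomposable with respect to `q`-sums -/
def Indec (q : (i : I) → Set (Fin (ar i) → Bool)) (D : Str ar) : Prop :=
  ∀ c : Fin D.1 → Bool, Split q D c → ∀ x y, c x = c y

theorem Split.restrict {q : (i : I) → Set (Fin (ar i) → Bool)} {C D : Str ar}
    {c : Fin C.1 → Bool} (h : Split q C c) {f : Fin D.1 → Fin C.1} (hf : IsEmb D C f) :
    Split q D (c ∘ f) := by
  intro i t ht
  rw [hf.2 i t]
  exact h i (f ∘ t) ht

/-- all members of size zero embed into every member -/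
theorem IsAge.emb_of_size_zero {𝒜 : Set (Str ar)} (h𝒜 : IsAge 𝒜) {A B : Str ar} (hA : A ∈ 𝒜)
    (hB : B ∈ 𝒜) (h0 : A.1 = 0) : Emb A B := by
  obtain ⟨C, hC, ⟨f, hf⟩, g, hg⟩ := h𝒜.2.2 A hA B hB
  have hem : IsEmpty (Fin A.1) := by rw [h0]; infer_instance
  refine ⟨fun x => hem.elim x, fun x => hem.elim x, ?_⟩
  intro i t
  rw [hf.2 i t, hg.2 i]
  have : f ∘ t = g ∘ (fun x => hem.elim x) ∘ t := by
    funext j
    exact hem.elim (t j)
  rw [this]

/-- the two colour classes of `(C, c)` -/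
noncomputable def side (C : Str ar) (c : Fin C.1 → Bool) (b : Bool) : Str ar :=
  ind C (Finset.univ.filter (fun x => c x = b))

theorem side_emb (C : Str ar) (c : Fin C.1 → Bool) (b : Bool) : Emb (side C c b) C :=
  ⟨_, indMap_emb _ _⟩

theorem side_lt (C : Str ar) (c : Fin C.1 → Bool) (b : Bool) {x : Fin C.1} (hx : c x ≠ b) :
    (side C c b).1 < C.1 := by
  change (Finset.univ.filter (fun x => c x = b)).card < C.1
  have h : Finset.univ.filter (fun x => c x = b) ⊂ (Finset.univ : Finset (Fin C.1)) := by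
    refine ⟨Finset.subset_univ _, fun h => hx ?_⟩
    exact (Finset.mem_filter.1 (h (Finset.mem_univ x))).2
  have := Finset.card_lt_card h
  simpa using this

/-- Monotonicity of sums: if both sides of `(C, c)` embed into the sides of `(C', c')`, then
`C` embeds into `C'`. -/
theorem emb_of_sides {q : (i : I) → Set (Fin (ar i) → Bool)} {C C' : Str ar}
    {c : Fin C.1 → Bool} {c' : Fin C'.1 → Bool} (h : Split q C c) (h' : Split q C' c')
    (hs : ∀ b, Emb (side C c b) (side C' c' b)) : Emb C C' := by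
  classical
  -- embeddings of the sides into C'
  have hs' : ∀ b, ∃ f : Fin (side C c b).1 → Fin C'.1, IsEmb (side C c b) C' f ∧
      ∀ x, c' (f x) = b := by
    intro b
    obtain ⟨f, hf⟩ := hs b
    refine ⟨indMap C' _ ∘ f, hf.trans (indMap_emb C' _), ?_⟩
    intro x
    exact (Finset.mem_filter.1 (indMap_mem C' _ (f x))).2
  choose f hf hfc using hs'
  have hx : ∀ x : Fin C.1, ∃ y : Fin (side C c (c x)).1, indMap C _ y = x := by
    intro x
    exact exists_indMap C _ (Finset.mem_filter.2 ⟨Finset.mem_univ x, rfl⟩)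
  choose y hy using hx
  -- general form: for any b with c x = b
  have hx2 : ∀ (b : Bool) (x : {x : Fin C.1 // c x = b}), ∃ z : Fin (side C c b).1,
      indMap C _ z = x.1 := by
    intro b x
    exact exists_indMap C _ (Finset.mem_filter.2 ⟨Finset.mem_univ x.1, x.2⟩)
  choose z hz using hx2
  let F : Fin C.1 → Fin C'.1 := fun x => f (c x) (z (c x) ⟨x, rfl⟩)
  have hF : ∀ (b : Bool) (x : {x : Fin C.1 // c x = b}), F x.1 = f b (z b x) := by
    rintro b ⟨x, rfl⟩
    rfl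
  have hFc : ∀ x, c' (F x) = c x := fun x => hfc _ _
  refine ⟨F, ?_, ?_⟩
  · intro x x' hxx
    have hc : c x = c x' := by rw [← hFc x, ← hFc x', hxx]
    have h1 := hF (c x') ⟨x, hc⟩
    have h2 := hF (c x') ⟨x', rfl⟩
    have h3 : f (c x') (z (c x') ⟨x, hc⟩) = f (c x') (z (c x') ⟨x', rfl⟩) := by
      rw [← h1, ← h2, hxx]
    have h4 := (hf (c x')).1 h3
    have h5 := hz (c x') ⟨x, hc⟩
    have h6 := hz (c x') ⟨x', rfl⟩
    rw [h4] at h5
    exact h5.symm.trans h6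
  · intro i t
    by_cases ht : ∃ j k, c (t j) ≠ c (t k)
    · rw [h i t ht, h' i (F ∘ t) (by
        obtain ⟨j, k, hjk⟩ := ht
        exact ⟨j, k, by simpa [hFc] using hjk⟩)]
      have : c' ∘ F ∘ t = c ∘ t := by
        funext j
        exact hFc _
      rw [this]
    · push Not at ht
      have hb : ∃ b, ∀ j, c (t j) = b := by
        rcases isEmpty_or_nonempty (Fin (ar i)) with he | ⟨⟨j0⟩⟩
        · exact ⟨false, fun j => he.elim j⟩
        · exact ⟨c (t j0), fun j => ht j j0⟩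
      obtain ⟨b, hb⟩ := hb
      have h1 : t = indMap C _ ∘ fun j => z b ⟨t j, hb j⟩ := by
        funext j
        exact (hz b ⟨t j, hb j⟩).symm
      have h2 : F ∘ t = f b ∘ fun j => z b ⟨t j, hb j⟩ := by
        funext j
        exact hF b ⟨t j, hb j⟩
      rw [h2]
      have h3 := (hf b).2 i (fun j => z b ⟨t j, hb j⟩)
      rw [← h3]
      have h4 := (indMap_emb C (Finset.univ.filter (fun x => c x = b))).2 i
        (fun j => z b ⟨t j, hb j⟩)
      rw [← h1] at h4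
      exact h4.symm

theorem noAntichain_of_sumClosed {𝒜 : Set (Str ar)} (h𝒜 : IsAge 𝒜)
    {q : (i : I) → Set (Fin (ar i) → Bool)} (hq : SumClosed q 𝒜) (hwf : SubagesWF 𝒜) :
    NoAntichain 𝒜 := by
  classical
  rintro ⟨s, hs, hanti⟩
  -- a minimal bad sequence
  have hex : ∃ f : ℕ → Str ar, Set.PartiallyWellOrderedOn.IsBadSeq Emb 𝒜 f :=
    ⟨s, hs, fun m n hmn => hanti m n hmn.ne⟩
  obtain ⟨f, hf, hmin⟩ := Set.PartiallyWellOrderedOn.exists_min_bad_of_exists_bad Emb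
    (fun A : Str ar => A.1) 𝒜 hex
  obtain ⟨hf𝒜, hfbad⟩ := hf
  -- the proper substructures of the terms are well-quasi-ordered
  have hprop : ∀ g : ℕ → Str ar, (∀ k, ∃ n, Emb (g k) (f n) ∧ (g k).1 < (f n).1) →
      ∃ m n, m < n ∧ Emb (g m) (g n) := by
    intro g hg
    by_contra hbad
    push Not at hbad
    choose N hN1 hN2 using hg
    set k0 := Function.argmin N with hk0
    have hk : ∀ k, N k0 ≤ N k := fun k => Function.argmin_le N k
    set n0 := N k0 with hn0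
    refine hmin n0 (fun k => if k < n0 then f k else g (k0 + (k - n0))) ?_ ?_ ⟨?_, ?_⟩
    · intro m hm
      simp [hm]
    · have h1 : (if n0 < n0 then f n0 else g (k0 + (n0 - n0))) = g k0 := by simp
      change (if n0 < n0 then f n0 else g (k0 + (n0 - n0))).1 < (f n0).1
      rw [h1]
      exact hN2 k0
    · intro n
      change (if n < n0 then f n else g (k0 + (n - n0))) ∈ 𝒜
      split_ifs with h
      · exact hf𝒜 n
      · exact h𝒜.2.1 _ _ (hf𝒜 _) (hN1 _)
    · intro m n hmn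
      change ¬ Emb (if m < n0 then f m else g (k0 + (m - n0)))
        (if n < n0 then f n else g (k0 + (n - n0)))
      split_ifs with h1 h2 h2
      · exact hfbad m n hmn
      · intro h
        exact hfbad m _ (lt_of_lt_of_le h1 (hk _)) (h.trans (hN1 _))
      · omega
      · exact hbad _ _ (by omega)
  -- only finitely many terms are decomposable
  have hdec : ∃ K, ∀ n, K ≤ n → Indec q (f n) := by
    by_contra hno
    have hno' : ∀ N, ∃ n > N, ∃ c : Fin (f n).1 → Bool, Split q (f n) c ∧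
        ∃ x y, c x ≠ c y := by
      intro N
      by_contra h
      apply hno
      refine ⟨N + 1, fun n hn c hc x y => ?_⟩
      by_contra hxy
      exact h ⟨n, by omega, c, hc, x, y, hxy⟩
    obtain ⟨φ, hφ, hφ2⟩ := Nat.exists_strictMono_subsequence hno'
    choose c hc x y hxy using hφ2
    have hpr : ∀ (b : Bool) (n : ℕ), Emb (side (f (φ n)) (c n) b) (f (φ n)) ∧
        (side (f (φ n)) (c n) b).1 < (f (φ n)).1 := by
      intro b n
      refine ⟨side_emb _ _ _, ?_⟩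
      by_cases h : c n (x n) = b
      · exact side_lt _ _ _ (x := y n) (fun h2 => hxy n (h.trans h2.symm))
      · exact side_lt _ _ _ (x := x n) h
    have : IsTrans (Str ar) Emb := ⟨fun _ _ _ => Emb.trans⟩
    obtain ⟨g, hg⟩ := exists_increasing_or_nonincreasing_subseq Emb
      (fun n => side (f (φ n)) (c n) false)
    have hg1 : ∀ m n : ℕ, m < n → Emb (side (f (φ (g m))) (c (g m)) false)
        (side (f (φ (g n))) (c (g n)) false) := by
      rcases hg with hg | hg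
      · exact hg
      · exfalso
        obtain ⟨m, n, hmn, h⟩ := hprop (fun n => side (f (φ (g n))) (c (g n)) false)
          (fun n => ⟨φ (g n), hpr false (g n)⟩)
        exact hg m n hmn h
    obtain ⟨m, n, hmn, h⟩ := hprop (fun n => side (f (φ (g n))) (c (g n)) true)
      (fun n => ⟨φ (g n), hpr true (g n)⟩)
    refine hfbad (φ (g m)) (φ (g n)) (hφ (g.strictMono hmn))
      (emb_of_sides (hc (g m)) (hc (g n)) ?_)
    intro b
    cases b
    · exact hg1 m n hmn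
    · exact h
  obtain ⟨K, hK⟩ := hdec
  -- a strictly decreasing sequence of sub-ages
  apply hwf
  refine ⟨fun n => {C | C ∈ 𝒜 ∧ ∀ D : Str ar, Indec q D → 0 < D.1 → Emb D C →
    ∃ k, n ≤ k ∧ Emb D (f (K + k))}, ?_, ?_⟩
  · intro n
    refine ⟨fun C hC => hC.1, ?_, ?_, ?_⟩
    · refine ⟨ind (f K) ∅, h𝒜.2.1 _ _ (hf𝒜 K) ⟨_, indMap_emb _ _⟩, ?_⟩
      intro D _ hD0 hD
      have h1 := size_le hD
      have h2 : (ind (f K) ∅).1 = 0 := rfl
      omega
    · rintro A B ⟨hB, hB2⟩ hAB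
      exact ⟨h𝒜.2.1 _ _ hB hAB, fun D h1 h2 h3 => hB2 D h1 h2 (h3.trans hAB)⟩
    · rintro A ⟨hA, hA2⟩ B ⟨hB, hB2⟩
      obtain ⟨C, hC, c, a, b, hspl, ha, hb, hca, hcb⟩ := hq A hA B hB
      set X : Finset (Fin C.1) := Finset.univ.image a ∪ Finset.univ.image b with hX
      have haX : ∀ x, a x ∈ X := fun x => Finset.mem_union_left _
        (Finset.mem_image_of_mem a (Finset.mem_univ x))
      have hbX : ∀ x, b x ∈ X := fun x => Finset.mem_union_right _
        (Finset.mem_image_of_mem b (Finset.mem_univ x))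
      obtain ⟨a', ha', ha''⟩ := emb_ind ha haX
      obtain ⟨b', hb', hb''⟩ := emb_ind hb hbX
      refine ⟨ind C X, ⟨h𝒜.2.1 _ _ hC ⟨_, indMap_emb _ _⟩, ?_⟩, ⟨a', ha'⟩, ⟨b', hb'⟩⟩
      rintro D hD hD0 ⟨d, hd⟩
      have hspl' : Split q D (c ∘ indMap C X ∘ d) := hspl.restrict (hd.trans (indMap_emb C X))
      have hconst := hD _ hspl'
      have hXmem : ∀ x : Fin D.1, (∃ y, a y = indMap C X (d x)) ∨
          (∃ y, b y = indMap C X (d x)) := by
        intro x
        have h := indMap_mem C X (d x)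
        rcases Finset.mem_union.1 h with h | h
        · obtain ⟨y, _, hy⟩ := Finset.mem_image.1 h
          exact Or.inl ⟨y, hy⟩
        · obtain ⟨y, _, hy⟩ := Finset.mem_image.1 h
          exact Or.inr ⟨y, hy⟩
      have hdC : IsEmb D C (indMap C X ∘ d) := hd.trans (indMap_emb C X)
      by_cases hcol : c (indMap C X (d ⟨0, hD0⟩)) = false
      · -- D embeds into A
        have hall : ∀ x, ∃ y, a y = indMap C X (d x) := by
          intro x
          rcases hXmem x with h | ⟨y, hy⟩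
          · exact h
          · exfalso
            have h1 : c (indMap C X (d x)) = c (indMap C X (d ⟨0, hD0⟩)) := hconst x ⟨0, hD0⟩
            rw [hcol, ← hy, hcb y] at h1
            exact Bool.noConfusion h1
        choose e he using hall
        refine hA2 D hD hD0 ⟨e, ?_, ?_⟩
        · intro x x' hxx
          apply hdC.1
          change indMap C X (d x) = indMap C X (d x')
          rw [← he x, ← he x', hxx]
        · intro i t
          rw [hdC.2 i t, ha.2 i (e ∘ t)]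
          have : (indMap C X ∘ d) ∘ t = a ∘ e ∘ t := by
            funext j
            exact (he (t j)).symm
          rw [this]
      · have hall : ∀ x, ∃ y, b y = indMap C X (d x) := by
          intro x
          rcases hXmem x with ⟨y, hy⟩ | h
          · exfalso
            have h1 : c (indMap C X (d x)) = c (indMap C X (d ⟨0, hD0⟩)) := hconst x ⟨0, hD0⟩
            rw [← hy, hca y] at h1
            exact hcol h1.symm
          · exact h
        choose e he using hall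
        refine hB2 D hD hD0 ⟨e, ?_, ?_⟩
        · intro x x' hxx
          apply hdC.1
          change indMap C X (d x) = indMap C X (d x')
          rw [← he x, ← he x', hxx]
        · intro i t
          rw [hdC.2 i t, hb.2 i (e ∘ t)]
          have : (indMap C X ∘ d) ∘ t = b ∘ e ∘ t := by
            funext j
            exact (he (t j)).symm
          rw [this]
  · intro n
    have hmem : f (K + n) ∈ {C | C ∈ 𝒜 ∧ ∀ D : Str ar, Indec q D → 0 < D.1 → Emb D C →
        ∃ k, n ≤ k ∧ Emb D (f (K + k))} :=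
      ⟨hf𝒜 _, fun D _ _ h => ⟨n, le_rfl, h⟩⟩
    have hnot : f (K + n) ∉ {C | C ∈ 𝒜 ∧ ∀ D : Str ar, Indec q D → 0 < D.1 → Emb D C →
        ∃ k, n + 1 ≤ k ∧ Emb D (f (K + k))} := by
      rintro ⟨_, h⟩
      have hpos : 0 < (f (K + n)).1 := by
        rcases Nat.eq_zero_or_pos (f (K + n)).1 with h0 | h0
        · exact absurd (h𝒜.emb_of_size_zero (hf𝒜 (K + n)) (hf𝒜 (K + n + 1)) h0)
            (hfbad _ _ (by omega))
        · exact h0
      obtain ⟨k, hk, h2⟩ := h _ (hK _ (by omega)) hpos (Emb.refl _)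
      exact hfbad (K + n) (K + k) (by omega) h2
    refine ⟨fun C hC => ⟨hC.1, fun D h1 h2 h3 => ?_⟩, fun h => hnot (h hmem)⟩
    obtain ⟨k, hk, h4⟩ := hC.2 D h1 h2 h3
    exact ⟨k, by omega, h4⟩

end Sums

/-! ## Vertex Ramsey ages of binary structures -/

section Ramsey

/-- the pattern set of a pair of vertices -/
def crossType (H : Str ar) (x y : Fin H.1) : (i : I) → Set (Fin (ar i) → Bool) :=
  fun i => {p | (fun j => if p j then y else x) ∈ H.2 i}

theorem crossType_emb {A H : Str ar} {f : Fin A.1 → Fin H.1} (hf : IsEmb A H f)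
    (x y : Fin A.1) : crossType H (f x) (f y) = crossType A x y := by
  funext i
  ext p
  change (fun j => if p j then f y else f x) ∈ H.2 i ↔ (fun j => if p j then y else x) ∈ A.2 i
  rw [hf.2 i]
  have : (fun j => if p j then f y else f x) = f ∘ fun j => if p j then y else x := by
    funext j
    change _ = f (if p j then y else x)
    split_ifs <;> rfl
  rw [this]

theorem split_of_cross (har : ∀ i, ar i ≤ 2) {q : (i : I) → Set (Fin (ar i) → Bool)}
    {C : Str ar} {c : Fin C.1 → Bool}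
    (h : ∀ x y, c x = false → c y = true → crossType C x y = q) : Split q C c := by
  intro i t hjk
  obtain ⟨j, k, hj, hk⟩ : ∃ j k, c (t j) = false ∧ c (t k) = true := by
    obtain ⟨j, k, hjk⟩ := hjk
    cases hj : c (t j) <;> cases hk : c (t k)
    · exact absurd (hj.trans hk.symm) hjk
    · exact ⟨j, k, hj, hk⟩
    · exact ⟨k, j, hk, hj⟩
    · exact absurd (hj.trans hk.symm) hjk
  have hne : j ≠ k := by
    rintro rfl
    rw [hj] at hk
    exact Bool.noConfusion hk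
  have hall : ∀ l, l = j ∨ l = k := by
    intro l
    have h1 := har i
    have h2 := l.2
    have h3 := j.2
    have h4 := k.2
    have h5 : j.1 ≠ k.1 := fun h => hne (Fin.ext h)
    by_contra hcon
    push Not at hcon
    have h6 : l.1 ≠ j.1 := fun h => hcon.1 (Fin.ext h)
    have h7 : l.1 ≠ k.1 := fun h => hcon.2 (Fin.ext h)
    omega
  have ht : t = fun l => if (c ∘ t) l then t k else t j := by
    funext l
    rcases hall l with rfl | rfl
    · simp [hj]
    · simp [hk]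
  have hq := h (t j) (t k) hj hk
  rw [← hq]
  change t ∈ C.2 i ↔ (fun l => if (c ∘ t) l then t k else t j) ∈ C.2 i
  rw [← ht]

/-- `q` works for `G`: a `q`-sum of two copies of `G` lies in `𝒜` -/
def Works (𝒜 : Set (Str ar)) (q : (i : I) → Set (Fin (ar i) → Bool)) (G : Str ar) : Prop :=
  ∃ C ∈ 𝒜, ∃ (c : Fin C.1 → Bool) (f : Fin G.1 → Fin C.1)
    (g : Fin G.1 → Fin C.1), Split q C c ∧ IsEmb G C f ∧ IsEmb G C g ∧
      (∀ x, c (f x) = false) ∧ ∀ x, c (g x) = true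

theorem exists_works [Finite I] (har : ∀ i, ar i ≤ 2) {𝒜 : Set (Str ar)} (h𝒜 : IsAge 𝒜)
    (hR : VertexRamsey 𝒜) {G : Str ar} (hG : G ∈ 𝒜) (h2 : 2 ≤ G.1) : ∃ q, Works 𝒜 q G := by
  classical
  obtain ⟨H₁, hH₁, hc₁⟩ := hR ((i : I) → Set (Fin (ar i) → Bool)) inferInstance G hG
  obtain ⟨H₂', hH₂', hc₂⟩ := hR (Option (Fin H₁.1) ×
    (Fin H₁.1 → (i : I) → Set (Fin (ar i) → Bool))) inferInstance G hG
  obtain ⟨H, hH, ⟨e, he⟩, ⟨h, hh⟩⟩ := h𝒜.2.2 H₂' hH₂' H₁ hH₁
  obtain ⟨g', hg', hg'c⟩ := hc₂ (fun x =>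
    (if hx : ∃ j, h j = e x then some hx.choose else none, fun j => crossType H (h j) (e x)))
  have hg : IsEmb G H (e ∘ g') := hg'.trans he
  have hg1 : ∀ x y, (if hx : ∃ j, h j = e (g' x) then some hx.choose else none) =
      (if hx : ∃ j, h j = e (g' y) then some hx.choose else none) :=
    fun x y => congrArg Prod.fst (hg'c x y)
  have hg2 : ∀ x y, (fun j => crossType H (h j) (e (g' x))) =
      fun j => crossType H (h j) (e (g' y)) :=
    fun x y => congrArg Prod.snd (hg'c x y)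
  -- the copy is disjoint from the image of `h`
  have hdis : ∀ x, ¬ ∃ j, h j = e (g' x) := by
    intro x hx
    obtain ⟨y, hy⟩ : ∃ y : Fin G.1, y ≠ x := by
      by_cases h0 : x.1 = 0
      · exact ⟨⟨1, by omega⟩, fun h => by rw [← h] at h0; exact absurd h0 (by simp)⟩
      · exact ⟨⟨0, by omega⟩, fun h => h0 (by rw [← h])⟩
    have h3 := hg1 x y
    rw [dif_pos hx] at h3
    split_ifs at h3 with hy'
    have h4 : hx.choose = hy'.choose := Option.some.inj h3
    have h5 := hx.choose_spec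
    have h6 := hy'.choose_spec
    rw [h4] at h5
    exact hy (hg.1 (h6.symm.trans h5))
  let z : Fin G.1 := ⟨0, by omega⟩
  obtain ⟨f, hf, hfc⟩ := hc₁ (fun j => crossType H (h j) (e (g' z)))
  set q := crossType H (h (f z)) (e (g' z)) with hq
  have hcross : ∀ x y, crossType H (h (f x)) (e (g' y)) = q := by
    intro x y
    have h3 := congrFun (hg2 y z) (f x)
    exact h3.trans (hfc x z)
  have hhf : IsEmb G H (h ∘ f) := hf.trans hh
  set X : Finset (Fin H.1) := Finset.univ.image (h ∘ f) ∪ Finset.univ.image (e ∘ g') with hX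
  have haX : ∀ x, (h ∘ f) x ∈ X := fun x => Finset.mem_union_left _
    (Finset.mem_image_of_mem _ (Finset.mem_univ x))
  have hbX : ∀ x, (e ∘ g') x ∈ X := fun x => Finset.mem_union_right _
    (Finset.mem_image_of_mem _ (Finset.mem_univ x))
  obtain ⟨a', ha', ha''⟩ := emb_ind hhf haX
  obtain ⟨b', hb', hb''⟩ := emb_ind hg hbX
  refine ⟨q, ind H X, h𝒜.2.1 _ _ hH ⟨_, indMap_emb _ _⟩,
    fun w => decide (∃ y, (e ∘ g') y = indMap H X w), a', b', ?_, ha', hb', ?_, ?_⟩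
  · apply split_of_cross har
    intro x y hx hy
    rw [← crossType_emb (indMap_emb H X) x y]
    have hx' : ¬ ∃ y, (e ∘ g') y = indMap H X x := of_decide_eq_false hx
    have hy' : ∃ y', (e ∘ g') y' = indMap H X y := of_decide_eq_true hy
    obtain ⟨y', hy'⟩ := hy'
    have hx2 : ∃ x', (h ∘ f) x' = indMap H X x := by
      rcases Finset.mem_union.1 (indMap_mem H X x) with h | h
      · obtain ⟨x', _, h'⟩ := Finset.mem_image.1 h
        exact ⟨x', h'⟩
      · obtain ⟨x', _, h'⟩ := Finset.mem_image.1 h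
        exact absurd ⟨x', h'⟩ hx'
    obtain ⟨x', hx'2⟩ := hx2
    rw [← hx'2, ← hy']
    exact hcross x' y'
  · intro x
    apply decide_eq_false
    rw [ha'']
    rintro ⟨y, hy⟩
    exact hdis y ⟨f x, hy.symm⟩
  · intro x
    apply decide_eq_true
    rw [hb'']
    exact ⟨x, rfl⟩

theorem Works.mono {𝒜 : Set (Str ar)} {q : (i : I) → Set (Fin (ar i) → Bool)} {G G' : Str ar}
    (h : Works 𝒜 q G') (hG : Emb G G') : Works 𝒜 q G := by
  obtain ⟨C, hC, c, f, g, h1, h2, h3, h4, h5⟩ := h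
  obtain ⟨e, he⟩ := hG
  exact ⟨C, hC, c, f ∘ e, g ∘ e, h1, he.trans h2, he.trans h3, fun x => h4 _, fun x => h5 _⟩

/-- finitely many members of an age have a common upper bound -/
theorem IsAge.upper {𝒜 : Set (Str ar)} (h𝒜 : IsAge 𝒜) {ι : Type} [Finite ι] (F : ι → Str ar)
    (hF : ∀ i, F i ∈ 𝒜) : ∃ M ∈ 𝒜, ∀ i, Emb (F i) M := by
  have := Fintype.ofFinite ι
  classical
  have key : ∀ s : Finset ι, ∃ M ∈ 𝒜, ∀ i ∈ s, Emb (F i) M := by
    intro s
    induction s using Finset.induction_on with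
    | empty =>
      obtain ⟨m, hm⟩ := h𝒜.1
      exact ⟨m, hm, by simp⟩
    | insert a s _ ih =>
      obtain ⟨m, hm, hs⟩ := ih
      obtain ⟨C, hC, h1, h2⟩ := h𝒜.2.2 m hm (F a) (hF a)
      refine ⟨C, hC, fun i hi => ?_⟩
      rcases Finset.mem_insert.1 hi with rfl | hi
      · exact h2
      · exact (hs i hi).trans h1
  obtain ⟨m, hm, h⟩ := key Finset.univ
  exact ⟨m, hm, fun i => h i (Finset.mem_univ i)⟩

theorem sumClosed_of_vertexRamsey [Finite I] (har : ∀ i, ar i ≤ 2) {𝒜 : Set (Str ar)}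
    (h𝒜 : IsAge 𝒜) (hR : VertexRamsey 𝒜) (h2 : ∃ G ∈ 𝒜, 2 ≤ G.1) : ∃ q, SumClosed q 𝒜 := by
  classical
  have hex : ∃ q, ∀ G ∈ 𝒜, Works 𝒜 q G := by
    by_contra hno
    push Not at hno
    choose F hF hF2 using hno
    obtain ⟨M, hM, hMF⟩ := h𝒜.upper F hF
    obtain ⟨G, hG, hG2⟩ := h2
    obtain ⟨N, hN, h1, h3⟩ := h𝒜.2.2 M hM G hG
    have h4 : 2 ≤ N.1 := hG2.trans (size_le h3)
    obtain ⟨q, hq⟩ := exists_works har h𝒜 hR hN h4
    exact hF2 q (hq.mono ((hMF q).trans h1))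
  obtain ⟨q, hq⟩ := hex
  refine ⟨q, fun A hA B hB => ?_⟩
  obtain ⟨G, hG, ⟨a, ha⟩, b, hb⟩ := h𝒜.2.2 A hA B hB
  obtain ⟨C, hC, c, f, g, h1, h2, h3, h4, h5⟩ := hq G hG
  exact ⟨C, hC, c, f ∘ a, g ∘ b, h1, ha.trans h2, hb.trans h3, fun x => h4 _, fun x => h5 _⟩

theorem noAntichain_of_small [Finite I] {𝒜 : Set (Str ar)} (h : ∀ G ∈ 𝒜, G.1 ≤ 1) :
    NoAntichain 𝒜 := by
  rintro ⟨s, hs, hanti⟩
  have hfin : {A : Str ar | A.1 ≤ 1}.Finite := by
    have h1 : {A : Str ar | A.1 ≤ 1} ⊆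
        Set.range (fun A : (Σ n : Fin 2, (i : I) → Set (Fin (ar i) → Fin n.1)) =>
          (⟨A.1.1, A.2⟩ : Str ar)) := by
      rintro ⟨n, A⟩ hn
      have hn' : n ≤ 1 := hn
      exact ⟨⟨⟨n, by omega⟩, A⟩, rfl⟩
    exact (Set.finite_range _).subset h1
  have := hfin.to_subtype
  obtain ⟨m, k, hmk, heq⟩ := Finite.exists_ne_map_eq_of_infinite
    (fun n => (⟨s n, h _ (hs n)⟩ : {A : Str ar | A.1 ≤ 1}))
  have heq' : s m = s k := congrArg Subtype.val heq
  apply hanti m k hmk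
  rw [heq']
  exact Emb.refl _

theorem noAntichain_of_vertexRamsey [Finite I] (har : ∀ i, ar i ≤ 2) {𝒜 : Set (Str ar)}
    (h𝒜 : IsAge 𝒜) (hR : VertexRamsey 𝒜) (hwf : SubagesWF 𝒜) : NoAntichain 𝒜 := by
  by_cases h2 : ∃ G ∈ 𝒜, 2 ≤ G.1
  · obtain ⟨q, hq⟩ := sumClosed_of_vertexRamsey har h𝒜 hR h2
    exact noAntichain_of_sumClosed h𝒜 hq hwf
  · apply noAntichain_of_small
    push Not at h2
    intro G hG
    have := h2 G hG
    omega

end Ramsey

/-! ## The covering theorem -/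

section Cover

/-- `𝒜` is covered by finitely many well-quasi-ordered sub-ages -/
def Covered (𝒜 : Set (Str ar)) : Prop :=
  ∃ κ : Type, Finite κ ∧ ∃ ℬ : κ → Set (Str ar), (∀ b, ℬ b ⊆ 𝒜 ∧ IsAge (ℬ b) ∧
    NoAntichain (ℬ b) ∧ VertexRamsey (ℬ b)) ∧ ∀ H ∈ 𝒜, ∃ c : Fin H.1 → κ, ∀ (A : Str ar) (f : Fin A.1 → Fin H.1),
      IsEmb A H f → ∀ b, (∀ x, c (f x) = b) → A ∈ ℬ b

theorem SubagesWF.mono {𝒜 ℬ : Set (Str ar)} (h : SubagesWF 𝒜) (hs : ℬ ⊆ 𝒜) :
    SubagesWF ℬ := by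
  rintro ⟨D, hD, hD2⟩
  exact h ⟨D, fun k => ⟨(hD k).1.trans hs, (hD k).2⟩, hD2⟩

theorem covered_step [Finite I] (har : ∀ i, ar i ≤ 2) {𝒜 : Set (Str ar)} (h𝒜 : IsAge 𝒜)
    (hwf : SubagesWF 𝒜) (ih : ∀ ℬ : Set (Str ar), ℬ ⊂ 𝒜 → IsAge ℬ → Covered ℬ) :
    Covered 𝒜 := by
  classical
  by_cases hR : VertexRamsey 𝒜
  · refine ⟨Unit, inferInstance, fun _ => 𝒜, fun _ => ⟨subset_rfl, h𝒜,
      noAntichain_of_vertexRamsey har h𝒜 hR hwf, hR⟩, fun H hH => ⟨fun _ => (), ?_⟩⟩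
    intro A f hf _ _
    exact h𝒜.2.1 A H hH ⟨f, hf⟩
  · unfold VertexRamsey at hR
    push Not at hR
    obtain ⟨κ, hκ, G, hG, hbad⟩ := hR
    have hV : Valid 𝒜 {p : κ × Str ar | p.2 ∈ 𝒜 ∧ ¬ Emb G p.2} := by
      refine ⟨?_, ?_⟩
      · rintro b A B ⟨hB, hB2⟩ hAB
        exact ⟨h𝒜.2.1 _ _ hB hAB, fun h => hB2 (h.trans hAB)⟩
      · intro H hH
        obtain ⟨c, hc⟩ := hbad H hH
        refine ⟨c, ?_⟩
        intro A f hf b hb
        refine ⟨h𝒜.2.1 _ _ hH ⟨f, hf⟩, ?_⟩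
        rintro ⟨g, hg⟩
        obtain ⟨x, y, hxy⟩ := hc (f ∘ g) (hg.trans hf)
        exact hxy ((hb _).trans (hb _).symm)
    obtain ⟨P, hP, hmin⟩ := exists_minimal_valid hV
    have hslice : ∀ b, Covered {A : Str ar | (b, A) ∈ P} := by
      intro b
      apply ih _ _ (slice_isAge h𝒜 hmin b)
      refine ⟨fun A hA => (hP hA).1, fun h => ?_⟩
      exact (hP (h hG)).2 (Emb.refl G)
    choose K hK ℬ hℬ hcov using hslice
    refine ⟨Σ b, K b, inferInstance, fun p => ℬ p.1 p.2, ?_, ?_⟩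
    · rintro ⟨b, k⟩
      exact ⟨fun A hA => (hP ((hℬ b k).1 hA)).1, (hℬ b k).2⟩
    · intro H hH
      obtain ⟨c, hc⟩ := hmin.prop.2 H hH
      let X : κ → Finset (Fin H.1) := fun b => Finset.univ.filter (fun x => c x = b)
      have hX : ∀ b, ind H (X b) ∈ {A : Str ar | (b, A) ∈ P} := by
        intro b
        refine hc (ind H (X b)) (indMap H (X b)) (indMap_emb H (X b)) b ?_
        intro x
        exact (Finset.mem_filter.1 (indMap_mem H (X b) x)).2
      choose d hd using fun b => hcov b _ (hX b)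
      have hx : ∀ (b : κ) (x : {x : Fin H.1 // c x = b}), ∃ z : Fin (ind H (X b)).1,
          indMap H (X b) z = x.1 := by
        intro b x
        exact exists_indMap H _ (Finset.mem_filter.2 ⟨Finset.mem_univ x.1, x.2⟩)
      choose z hz using hx
      refine ⟨fun x => ⟨c x, d (c x) (z (c x) ⟨x, rfl⟩)⟩, ?_⟩
      rintro A f hf ⟨b, k⟩ hb
      have hb1 : ∀ x, c (f x) = b := fun x => congrArg Sigma.fst (hb x)
      have hb2 : ∀ x, d b (z b ⟨f x, hb1 x⟩) = k := by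
        intro x
        have h1 := hb x
        have h2 : (⟨c (f x), d (c (f x)) (z (c (f x)) ⟨f x, rfl⟩)⟩ : Σ b, K b) =
            ⟨b, d b (z b ⟨f x, hb1 x⟩)⟩ := by
          have aux : ∀ (b' : κ) (h : c (f x) = b'),
              (⟨c (f x), d (c (f x)) (z (c (f x)) ⟨f x, rfl⟩)⟩ : Σ b, K b) =
                ⟨b', d b' (z b' ⟨f x, h⟩)⟩ := by
            rintro b' rfl
            rfl
          exact aux b (hb1 x)
        have h3 := h2.symm.trans h1
        exact eq_of_heq (Sigma.mk.inj h3).2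
      have hfac : ∀ x, indMap H (X b) (z b ⟨f x, hb1 x⟩) = f x := fun x => hz b ⟨f x, hb1 x⟩
      refine hd b A (fun x => z b ⟨f x, hb1 x⟩) ⟨?_, ?_⟩ k hb2
      · intro x y hxy
        apply hf.1
        rw [← hfac x, ← hfac y]
        exact congrArg _ hxy
      · intro i t
        rw [hf.2 i t, (indMap_emb H (X b)).2 i]
        have : f ∘ t = indMap H (X b) ∘ (fun x => z b ⟨f x, hb1 x⟩) ∘ t := by
          funext j
          exact (hfac (t j)).symm
        rw [this]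

theorem covered_of_subagesWF [Finite I] (har : ∀ i, ar i ≤ 2) {𝒜 : Set (Str ar)}
    (h𝒜 : IsAge 𝒜) (hwf : SubagesWF 𝒜) : Covered 𝒜 := by
  by_contra hno
  -- descend through uncovered sub-ages
  have hstep : ∀ ℬ : {ℬ : Set (Str ar) // ℬ ⊆ 𝒜 ∧ IsAge ℬ ∧ ¬ Covered ℬ},
      ∃ 𝒞 : {ℬ : Set (Str ar) // ℬ ⊆ 𝒜 ∧ IsAge ℬ ∧ ¬ Covered ℬ}, 𝒞.1 ⊂ ℬ.1 := by
    rintro ⟨ℬ, h1, h2, h3⟩
    by_contra hcon
    apply h3
    apply covered_step har h2 (hwf.mono h1)
    intro 𝒞 h𝒞 h𝒞2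
    by_contra h4
    exact hcon ⟨⟨𝒞, h𝒞.1.trans h1, h𝒞2, h4⟩, h𝒞⟩
  choose nxt hnxt using hstep
  apply hwf
  refine ⟨fun n => (nxt^[n] ⟨𝒜, subset_rfl, h𝒜, hno⟩).1, fun k => ?_, fun k => ?_⟩
  · exact ⟨(nxt^[k] ⟨𝒜, subset_rfl, h𝒜, hno⟩).2.1, (nxt^[k] ⟨𝒜, subset_rfl, h𝒜, hno⟩).2.2.1⟩
  · change (nxt^[k + 1] ⟨𝒜, subset_rfl, h𝒜, hno⟩).1 ⊂ (nxt^[k] ⟨𝒜, subset_rfl, h𝒜, hno⟩).1
    rw [Function.iterate_succ_apply']
    exact hnxt _

theorem Covered.fin {𝒜 : Set (Str ar)} (h : Covered 𝒜) : ∃ (k : ℕ)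
    (ℬ : Fin k → Set (Str ar)), (∀ b, ℬ b ⊆ 𝒜 ∧ IsAge (ℬ b) ∧ NoAntichain (ℬ b) ∧
      VertexRamsey (ℬ b)) ∧
    ∀ H ∈ 𝒜, ∃ c : Fin H.1 → Fin k, ∀ (A : Str ar) (f : Fin A.1 → Fin H.1),
      IsEmb A H f → ∀ b, (∀ x, c (f x) = b) → A ∈ ℬ b := by
  obtain ⟨κ, hκ, ℬ, h1, h2⟩ := h
  obtain ⟨k, ⟨e⟩⟩ := Finite.exists_equiv_fin κ
  refine ⟨k, fun b => ℬ (e.symm b), fun b => h1 _, fun H hH => ?_⟩
  obtain ⟨c, hc⟩ := h2 H hH
  refine ⟨fun x => e (c x), fun A f hf b hb => hc A f hf _ fun x => ?_⟩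
  rw [← hb x, Equiv.symm_apply_apply]

/-- The covering theorem. -/
theorem finite_cover [Finite I] (har : ∀ i, ar i ≤ 2) {𝒜 : Set (Str ar)}
    (h𝒜 : IsAge 𝒜) (hwf : SubagesWF 𝒜) : ∃ (k : ℕ)
    (ℬ : Fin k → Set (Str ar)), (∀ b, ℬ b ⊆ 𝒜 ∧ IsAge (ℬ b) ∧ NoAntichain (ℬ b) ∧
      VertexRamsey (ℬ b)) ∧
    (∀ H ∈ 𝒜, ∃ c : Fin H.1 → Fin k, ∀ (A : Str ar) (f : Fin A.1 → Fin H.1),
      IsEmb A H f → ∀ b, (∀ x, c (f x) = b) → A ∈ ℬ b) ∧
    (VertexRamsey 𝒜 → ∃ b, ℬ b = 𝒜) := by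
  by_cases hR : VertexRamsey 𝒜
  · refine ⟨1, fun _ => 𝒜, fun _ => ⟨subset_rfl, h𝒜,
      noAntichain_of_vertexRamsey har h𝒜 hR hwf, hR⟩, fun H hH => ⟨fun _ => 0, ?_⟩,
      fun _ => ⟨0, rfl⟩⟩
    intro A f hf _ _
    exact h𝒜.2.1 A H hH ⟨f, hf⟩
  · obtain ⟨k, ℬ, h1, h2⟩ := (covered_of_subagesWF har h𝒜 hwf).fin
    exact ⟨k, ℬ, h1, h2, fun h => absurd h hR⟩

end Cover

end Pool.Agent.Lib.MP_4fb322_lc_h70
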