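import Mathlib
import Pool.Agent.Lib.MP_4fb322_lc_h70.Ages

set_option autoImplicit false

/-!
# Ages of locally finite structures
-/

namespace Pool.Agent.Lib.MP_4fb322_lc_h70

open Set

variable {I : Type} {ar : I → ℕ}

/-! ## Antichains and monotone subsequences -/

theorem Emb.symm_of_size {A B : Str ar} (h : Emb A B) (hs : A.1 = B.1) : Emb B A := by
  obtain ⟨f, hf⟩ := h
  have hb : Function.Bijective f := by
    rw [Fintype.bijective_iff_injective_and_card]
    exact ⟨hf.1, by simp [hs]⟩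
  obtain ⟨g, hg1, hg2⟩ := Function.bijective_iff_has_inverse.1 hb
  refine ⟨g, hg2.injective, fun i t => ?_⟩
  rw [hf.2 i (g ∘ t)]
  have : f ∘ g ∘ t = t := by
    funext j
    exact hg2 _
  rw [this]

theorem exists_emb_subseq {𝒜 : Set (Str ar)} (h : NoAntichain 𝒜) (s : ℕ → Str ar)
    (hs : ∀ n, s n ∈ 𝒜) : ∃ g : ℕ → ℕ, StrictMono g ∧ ∀ m n, m < n → Emb (s (g m)) (s (g n)) := by
  have : IsTrans (Str ar) Emb := ⟨fun _ _ _ => Emb.trans⟩
  obtain ⟨g, hg⟩ := exists_increasing_or_nonincreasing_subseq Emb s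
  rcases hg with hg | hg
  · exact ⟨g, g.strictMono, hg⟩
  exfalso
  have h2 : IsTrans (Str ar) (fun A B => Emb B A) := ⟨fun _ _ _ h1 h2 => Emb.trans h2 h1⟩
  obtain ⟨g', hg'⟩ := exists_increasing_or_nonincreasing_subseq (fun A B => Emb B A)
    (fun n => s (g n))
  rcases hg' with hg' | hg'
  · -- sizes are nonincreasing, so two of them agree
    have hanti : Antitone fun n => (s (g (g' n))).1 := by
      apply antitone_nat_of_succ_le
      intro n
      exact size_le (hg' n (n + 1) (Nat.lt_succ_self n))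
    obtain ⟨n, hn⟩ : ∃ n, ∀ m, n ≤ m → (s (g (g' n))).1 = (s (g (g' m))).1 := by
      obtain ⟨n, hn⟩ := WellFoundedGT.monotone_chain_condition
        (⟨fun n => OrderDual.toDual (s (g (g' n))).1, hanti⟩ : ℕ →o ℕᵒᵈ)
      exact ⟨n, fun m hm => congrArg OrderDual.ofDual (hn m hm)⟩
    have h3 := hg' n (n + 1) (Nat.lt_succ_self n)
    exact hg (g' n) (g' (n + 1)) (g'.strictMono (Nat.lt_succ_self n))
      (h3.symm_of_size (hn (n + 1) (Nat.le_succ n)).symm)
  · apply h
    refine ⟨fun n => s (g (g' n)), fun n => hs _, ?_⟩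
    intro m k hmk
    rcases lt_or_gt_of_ne hmk with hlt | hlt
    · exact hg _ _ (g'.strictMono hlt)
    · exact hg' k m hlt

/-! ## Structures on a set `V` -/

section OnV

variable {V : Type} (M : (i : I) → Set (Fin (ar i) → V))

/-- `f` restricted to `Y` is an embedding -/
def PE (Y : Set V) (f : V → V) : Prop :=
  Set.InjOn f Y ∧ ∀ (i : I) (t : Fin (ar i) → V), (∀ j, t j ∈ Y) → (t ∈ M i ↔ f ∘ t ∈ M i)

/-- `Y` embeds into `X` -/
def VE (Y X : Set V) : Prop := ∃ f : V → V, PE M Y f ∧ ∀ y ∈ Y, f y ∈ X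

/-- the age of the restriction to `X` -/
def ageOn (X : Set V) : Set (Str ar) :=
  {A | ∃ f : Fin A.1 → V, Function.Injective f ∧ (∀ x, f x ∈ X) ∧
    ∀ (i : I) (t : Fin (ar i) → Fin A.1), t ∈ A.2 i ↔ f ∘ t ∈ M i}

/-- the structure induced on a finite set, as a member of `Str` -/
noncomputable def indV (Y : Finset V) : Str ar :=
  ⟨Y.card, fun i => {t | (fun j => (Y.equivFin.symm (t j) : V)) ∈ M i}⟩

noncomputable def indVMap (Y : Finset V) : Fin (indV M Y).1 → V := fun x => Y.equivFin.symm x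

theorem indVMap_inj (Y : Finset V) : Function.Injective (indVMap M Y) := by
  intro x y h
  exact Y.equivFin.symm.injective (Subtype.ext h)

theorem indVMap_mem (Y : Finset V) (x : Fin (indV M Y).1) : indVMap M Y x ∈ Y :=
  (Y.equivFin.symm x).2

theorem indVMap_rel (Y : Finset V) (i : I) (t : Fin (ar i) → Fin (indV M Y).1) :
    t ∈ (indV M Y).2 i ↔ indVMap M Y ∘ t ∈ M i := Iff.rfl

theorem exists_indVMap (Y : Finset V) {v : V} (hv : v ∈ Y) : ∃ x, indVMap M Y x = v :=
  ⟨Y.equivFin ⟨v, hv⟩, by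
    change ((Y.equivFin.symm (Y.equivFin ⟨v, hv⟩) : Y) : V) = v
    rw [Equiv.symm_apply_apply]⟩

theorem emb_indV {A : Str ar} {Y : Finset V} {f : Fin A.1 → V} (hf : Function.Injective f)
    (hY : ∀ x, f x ∈ Y) (hr : ∀ (i : I) (t : Fin (ar i) → Fin A.1), t ∈ A.2 i ↔ f ∘ t ∈ M i) :
    Emb A (indV M Y) := by
  choose g hg using fun x => exists_indVMap M Y (hY x)
  refine ⟨g, ?_, ?_⟩
  · intro x y hxy
    apply hf
    rw [← hg x, ← hg y, hxy]
  · intro i t
    rw [hr i t, indVMap_rel]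
    have : f ∘ t = indVMap M Y ∘ g ∘ t := by
      funext j
      exact (hg (t j)).symm
    rw [this]

theorem indV_mem_ageOn {Y : Finset V} {X : Set V} (h : VE M Y X) : indV M Y ∈ ageOn M X := by
  obtain ⟨f, hf, hfX⟩ := h
  refine ⟨f ∘ indVMap M Y, ?_, fun x => hfX _ (indVMap_mem M Y x), ?_⟩
  · intro x y hxy
    exact indVMap_inj M Y (hf.1 (indVMap_mem M Y x) (indVMap_mem M Y y) hxy)
  · intro i t
    rw [indVMap_rel, hf.2 i (indVMap M Y ∘ t) (fun j => indVMap_mem M Y _)]
    rfl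

theorem VE_of_indV {Y : Finset V} {X : Set V} (h : indV M Y ∈ ageOn M X) : VE M Y X := by
  classical
  obtain ⟨f, hf, hX, hr⟩ := h
  have key : ∀ v (hv : v ∈ Y), ∃ x, indVMap M Y x = v := fun v hv => exists_indVMap M Y hv
  refine ⟨fun v => if hv : v ∈ Y then f (key v hv).choose else v, ⟨?_, ?_⟩, ?_⟩
  · intro v hv w hw hvw
    have hv' : v ∈ Y := hv
    have hw' : w ∈ Y := hw
    simp only [hv', hw', dif_pos] at hvw
    have h1 := hf hvw
    rw [← (key v hv').choose_spec, ← (key w hw').choose_spec, h1]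
  · intro i t ht
    have ht' : ∀ j, t j ∈ Y := ht
    have h1 := hr i (fun j => (key (t j) (ht' j)).choose)
    rw [indVMap_rel] at h1
    have h2 : (indVMap M Y ∘ fun j => (key (t j) (ht' j)).choose) = t := by
      funext j
      exact (key (t j) (ht' j)).choose_spec
    rw [h2] at h1
    rw [h1]
    have h3 : (f ∘ fun j => (key (t j) (ht' j)).choose) =
        (fun v => if hv : v ∈ Y then f (key v hv).choose else v) ∘ t := by
      funext j
      simp only [Function.comp_apply, ht' j, dif_pos]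
    rw [h3]
  · intro v hv
    have hv' : v ∈ Y := hv
    simp only [hv', dif_pos]
    exact hX _

theorem exists_indV_of_mem {A : Str ar} {X : Set V} (h : A ∈ ageOn M X) :
    ∃ Y : Finset V, ↑Y ⊆ X ∧ Emb A (indV M Y) ∧ Emb (indV M Y) A := by
  classical
  obtain ⟨f, hf, hX, hr⟩ := h
  refine ⟨Finset.univ.image f, ?_, ?_, ?_⟩
  · intro v hv
    obtain ⟨x, _, hx⟩ := Finset.mem_image.1 (Finset.mem_coe.1 hv)
    rw [← hx]
    exact hX x
  · exact emb_indV M hf (fun x => Finset.mem_image_of_mem f (Finset.mem_univ x)) hr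
  · have h1 : Emb A (indV M (Finset.univ.image f)) :=
      emb_indV M hf (fun x => Finset.mem_image_of_mem f (Finset.mem_univ x)) hr
    apply h1.symm_of_size
    change A.1 = (Finset.univ.image f).card
    rw [Finset.card_image_of_injective _ hf]
    simp

theorem ageOn_isAge (X : Set V) : IsAge (ageOn M X) := by
  classical
  refine ⟨⟨indV M ∅, ?_⟩, ?_, ?_⟩
  · exact indV_mem_ageOn M ⟨id, ⟨fun x hx => by simp at hx, fun i t _ => Iff.rfl⟩,
      fun y hy => by simp at hy⟩
  · rintro A B ⟨f, hf, hX, hr⟩ ⟨g, hg⟩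
    refine ⟨f ∘ g, hf.comp hg.1, fun x => hX _, fun i t => ?_⟩
    rw [hg.2 i t, hr i (g ∘ t)]
    rfl
  · rintro A ⟨f, hf, hX, hr⟩ B ⟨g, hg, hXg, hrg⟩
    refine ⟨indV M (Finset.univ.image f ∪ Finset.univ.image g), ?_, ?_, ?_⟩
    · apply indV_mem_ageOn
      refine ⟨id, ⟨fun x _ y _ h => h, fun i t _ => Iff.rfl⟩, ?_⟩
      intro y hy
      rcases Finset.mem_union.1 (Finset.mem_coe.1 hy) with hy | hy
      · obtain ⟨x, _, rfl⟩ := Finset.mem_image.1 hy
        exact hX x
      · obtain ⟨x, _, rfl⟩ := Finset.mem_image.1 hy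
        exact hXg x
    · exact emb_indV M hf (fun x => Finset.mem_union_left _
        (Finset.mem_image_of_mem f (Finset.mem_univ x))) hr
    · exact emb_indV M hg (fun x => Finset.mem_union_right _
        (Finset.mem_image_of_mem g (Finset.mem_univ x))) hrg

theorem ageOn_mono {X X' : Set V} (h : X ⊆ X') : ageOn M X ⊆ ageOn M X' := by
  rintro A ⟨f, hf, hX, hr⟩
  exact ⟨f, hf, fun x => h (hX x), hr⟩

theorem emb_of_VE {Y Z : Finset V} (h : VE M (Y : Set V) (Z : Set V)) :
    Emb (indV M Y) (indV M Z) := by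
  obtain ⟨f, hf, hX, hr⟩ := indV_mem_ageOn M h
  exact emb_indV M hf (fun x => hX x) hr

/-! ## Locally finite structures -/

variable (δ : I → Prop)

/-- neighbours of `v`: the points sharing with `v` a tuple with a value different from the
default value -/
def nbr (v : V) : Set V :=
  {w : V | w ≠ v ∧ ∃ (i : I) (t : Fin (ar i) → V), (∃ j, t j = v) ∧ (∃ k, t k = w) ∧
    ¬ (t ∈ M i ↔ δ i)}

/-- `D` is separated from `Y` minus `D` -/
def Sep (Y D : Set V) : Prop :=
  ∀ (i : I) (t : Fin (ar i) → V), (∀ j, t j ∈ Y) → (∃ j, t j ∈ D) → (∃ k, t k ∉ D) →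
    (t ∈ M i ↔ δ i)

variable {M δ}

theorem VE.mono {Y Y' X X' : Set V} (h : VE M Y X) (hY : Y' ⊆ Y) (hX : X ⊆ X') :
    VE M Y' X' := by
  obtain ⟨f, hf, hfX⟩ := h
  exact ⟨f, ⟨hf.1.mono hY, fun i t ht => hf.2 i t fun j => hY (ht j)⟩,
    fun y hy => hX (hfX y (hY hy))⟩

theorem VE.trans {Y Z X : Set V} (h : VE M Y Z) (h' : VE M Z X) : VE M Y X := by
  obtain ⟨f, hf, hfZ⟩ := h
  obtain ⟨g, hg, hgX⟩ := h'
  refine ⟨g ∘ f, ⟨?_, ?_⟩, fun y hy => hgX _ (hfZ y hy)⟩
  · intro x hx y hy hxy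
    exact hf.1 hx hy (hg.1 (hfZ x hx) (hfZ y hy) hxy)
  · intro i t ht
    rw [hf.2 i t ht, hg.2 i (f ∘ t) (fun j => hfZ _ (ht j))]
    rfl

/-- gluing two embeddings along a separation -/
theorem glue {Y D : Set V} (hsep : Sep M δ Y D) {f g : V → V}
    (hf : PE M (Y \ D) f) (hg : PE M D g) (hne : ∀ x ∈ D, ∀ y ∈ Y \ D, g x ≠ f y)
    (hfg : ∀ (i : I) (t : Fin (ar i) → V), (∀ j, t j ∈ g '' D ∪ f '' (Y \ D)) →
      (∃ j, t j ∈ g '' D) → (∃ k, t k ∈ f '' (Y \ D)) → (t ∈ M i ↔ δ i)) :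
    ∃ h : V → V, PE M Y h ∧ (∀ x ∈ D, h x = g x) ∧ ∀ x ∉ D, h x = f x := by
  classical
  refine ⟨fun x => if x ∈ D then g x else f x, ⟨?_, ?_⟩, ?_, ?_⟩
  · intro x hx y hy hxy
    by_cases hxD : x ∈ D <;> by_cases hyD : y ∈ D
    · simp only [hxD, hyD, if_true] at hxy
      exact hg.1 hxD hyD hxy
    · simp only [hxD, hyD, if_true, if_false] at hxy
      exact absurd hxy (hne x hxD y ⟨hy, hyD⟩)
    · simp only [hxD, hyD, if_true, if_false] at hxy
      exact absurd hxy.symm (hne y hyD x ⟨hx, hxD⟩)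
    · simp only [hxD, hyD, if_false] at hxy
      exact hf.1 ⟨hx, hxD⟩ ⟨hy, hyD⟩ hxy
  · intro i t ht
    by_cases h1 : ∀ j, t j ∈ D
    · rw [hg.2 i t h1]
      have : g ∘ t = (fun x => if x ∈ D then g x else f x) ∘ t := by
        funext j
        simp only [Function.comp_apply, h1 j, if_true]
      rw [this]
    · by_cases h2 : ∀ j, t j ∉ D
      · rw [hf.2 i t (fun j => ⟨ht j, h2 j⟩)]
        have : f ∘ t = (fun x => if x ∈ D then g x else f x) ∘ t := by
          funext j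
          simp only [Function.comp_apply, h2 j, if_false]
        rw [this]
      · push Not at h1 h2
        rw [hsep i t ht h2 h1]
        obtain ⟨k, hk⟩ := h1
        obtain ⟨j, hj⟩ := h2
        refine (hfg i ((fun x => if x ∈ D then g x else f x) ∘ t) ?_ ⟨j, ?_⟩ ⟨k, ?_⟩).symm
        · intro l
          by_cases hl : t l ∈ D
          · left
            simp only [Function.comp_apply, hl, if_true]
            exact Set.mem_image_of_mem g hl
          · right
            simp only [Function.comp_apply, hl, if_false]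
            exact Set.mem_image_of_mem f ⟨ht l, hl⟩
        · simp only [Function.comp_apply, hj, if_true]
          exact Set.mem_image_of_mem g hj
        · simp only [Function.comp_apply, hk, if_false]
          exact Set.mem_image_of_mem f ⟨ht k, hk⟩
  · intro x hx
    simp only [hx, if_true]
  · intro x hx
    simp only [hx, if_false]

/-- the hypothesis of local finiteness -/
def LocFin (M : (i : I) → Set (Fin (ar i) → V)) (δ : I → Prop) : Prop :=
  ∀ v : V, (nbr M δ v).Finite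

/-- `T` is a finite set such that what is left outside `T` is recurrent -/
def Kernel (M : (i : I) → Set (Fin (ar i) → V)) (T : Set V) : Prop :=
  ∀ F : Set V, F.Finite → ∀ Y : Set V, Y.Finite → VE M Y Tᶜ → VE M Y (T ∪ F)ᶜ

theorem exists_kernel (hwf : SubagesWF (ageOn M Set.univ)) : ∃ T : Set V, T.Finite ∧
    Kernel M T := by
  classical
  by_contra hno
  have hstep : ∀ T : {T : Set V // T.Finite}, ∃ T' : {T : Set V // T.Finite}, T.1 ⊆ T'.1 ∧
      ∃ Y : Set V, Y.Finite ∧ VE M Y T.1ᶜ ∧ ¬ VE M Y T'.1ᶜ := by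
    rintro ⟨T, hT⟩
    by_contra h
    apply hno
    refine ⟨T, hT, fun F hF Y hY hYT => ?_⟩
    by_contra h2
    exact h ⟨⟨T ∪ F, hT.union hF⟩, Set.subset_union_left, Y, hY, hYT, h2⟩
  choose nxt hn1 Y hY hY1 hY2 using hstep
  apply hwf
  refine ⟨fun n => ageOn M ((nxt^[n] ⟨∅, Set.finite_empty⟩).1ᶜ), fun k =>
    ⟨ageOn_mono M (Set.subset_univ _), ageOn_isAge M _⟩, fun k => ?_⟩
  change ageOn M ((nxt^[k + 1] ⟨∅, Set.finite_empty⟩).1ᶜ) ⊂
    ageOn M ((nxt^[k] ⟨∅, Set.finite_empty⟩).1ᶜ)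
  rw [Function.iterate_succ_apply']
  set S := nxt^[k] ⟨∅, Set.finite_empty⟩ with hS
  refine ⟨ageOn_mono M (Set.compl_subset_compl.2 (hn1 S)), fun h => ?_⟩
  apply hY2 S
  have h1 : indV M (hY S).toFinset ∈ ageOn M (S.1ᶜ) := by
    apply indV_mem_ageOn
    rw [Set.Finite.coe_toFinset]
    exact hY1 S
  have h2 := VE_of_indV M (h h1)
  rw [Set.Finite.coe_toFinset] at h2
  exact h2

/-- recurrent parts can be glued -/
theorem sum_of_kernel (hloc : LocFin M δ) {T : Set V} (hk : Kernel M T)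
    {Y D : Set V} (hY : Y.Finite) (hDY : D ⊆ Y) (hsep : Sep M δ Y D) (h1 : VE M D Tᶜ)
    (h2 : VE M (Y \ D) Tᶜ) : VE M Y Tᶜ := by
  obtain ⟨f, hf, hfT⟩ := h2
  have hF : (f '' (Y \ D) ∪ ⋃ v ∈ f '' (Y \ D), nbr M δ v).Finite := by
    have h3 : (f '' (Y \ D)).Finite := (hY.subset Set.sdiff_subset).image f
    exact h3.union (h3.biUnion fun v _ => hloc v)
  obtain ⟨g, hg, hgT⟩ := hk _ hF D (hY.subset hDY) h1
  have hfg : ∀ x ∈ D, ∀ y ∈ Y \ D, g x ≠ f y ∧ g x ∉ nbr M δ (f y) := by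
    intro x hx y hy
    have h3 := hgT x hx
    have h4 : f y ∈ f '' (Y \ D) := Set.mem_image_of_mem f hy
    refine ⟨fun h => h3 (Or.inr (Or.inl (h ▸ h4))), fun h => h3 (Or.inr (Or.inr ?_))⟩
    exact Set.mem_biUnion h4 h
  obtain ⟨h, hh, hhD, hhD'⟩ := glue hsep hf hg (fun x hx y hy => (hfg x hx y hy).1) (by
    rintro i t _ ⟨j, x, hx, hj⟩ ⟨k, y, hy, hk'⟩
    have h3 := hfg x hx y hy
    by_contra hcon
    exact h3.2 ⟨h3.1, i, t, ⟨k, hk'.symm⟩, ⟨j, hj.symm⟩, hcon⟩)
  refine ⟨h, hh, fun y hy => ?_⟩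
  by_cases hyD : y ∈ D
  · rw [hhD y hyD]
    exact fun h5 => hgT y hyD (Or.inl h5)
  · rw [hhD' y hyD]
    exact hfT y ⟨hy, hyD⟩

/-- the pattern family of the default values -/
def patt (ar : I → ℕ) (δ : I → Prop) : (i : I) → Set (Fin (ar i) → Bool) := fun i => {_p | δ i}

theorem sumClosed_kernel (hloc : LocFin M δ) {T : Set V} (hk : Kernel M T) :
    SumClosed (patt ar δ) (ageOn M Tᶜ) := by
  classical
  intro A hA B hB
  obtain ⟨YA, hYA, hA1, hA2⟩ := exists_indV_of_mem M hA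
  obtain ⟨YB, hYB, hB1, hB2⟩ := exists_indV_of_mem M hB
  -- move YB far from YA
  have hF : ((YA : Set V) ∪ ⋃ v ∈ (YA : Set V), nbr M δ v).Finite :=
    (Finset.finite_toSet YA).union ((Finset.finite_toSet YA).biUnion fun v _ => hloc v)
  have hB3 : VE M (YB : Set V) Tᶜ := ⟨id, ⟨fun x _ y _ h => h, fun i t _ => Iff.rfl⟩,
    fun y hy => hYB hy⟩
  obtain ⟨g, hg, hgT⟩ := hk _ hF YB (Finset.finite_toSet YB) hB3
  -- the union
  set Z : Finset V := YA ∪ YB.image g with hZ
  have hBmem : indV M YB ∈ ageOn M (g '' YB) := by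
    apply indV_mem_ageOn
    exact ⟨g, hg, fun y hy => Set.mem_image_of_mem g hy⟩
  have hdis : ∀ v ∈ YA, ∀ y ∈ YB, g y ≠ v ∧ g y ∉ nbr M δ v := by
    intro v hv y hy
    have h3 := hgT y (Finset.mem_coe.2 hy)
    have hv' : v ∈ (YA : Set V) := Finset.mem_coe.2 hv
    refine ⟨fun h => h3 (Or.inr (Or.inl (h ▸ hv'))), fun h => h3 (Or.inr (Or.inr ?_))⟩
    exact Set.mem_biUnion hv' h
  obtain ⟨a0, ha0⟩ := hA1
  obtain ⟨b0, hb0⟩ := hB1
  -- maps into Z
  have ha1 : ∀ x : Fin A.1, ∃ z, indVMap M Z z = indVMap M YA (a0 x) := fun x =>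
    exists_indVMap M Z (Finset.mem_union_left _ (indVMap_mem M YA _))
  have hb1 : ∀ x : Fin B.1, ∃ z, indVMap M Z z = g (indVMap M YB (b0 x)) := fun x =>
    exists_indVMap M Z (Finset.mem_union_right _ (Finset.mem_image_of_mem g
      (indVMap_mem M YB _)))
  choose a ha using ha1
  choose b hb using hb1
  refine ⟨indV M Z, ?_, fun z => decide (indVMap M Z z ∉ YA), a, b, ?_, ⟨?_, ?_⟩, ⟨?_, ?_⟩,
    ?_, ?_⟩
  · apply indV_mem_ageOn
    refine ⟨id, ⟨fun x _ y _ h => h, fun i t _ => Iff.rfl⟩, ?_⟩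
    intro y hy
    rcases Finset.mem_union.1 (Finset.mem_coe.1 hy) with hy | hy
    · exact hYA (Finset.mem_coe.2 hy)
    · obtain ⟨x, hx, rfl⟩ := Finset.mem_image.1 hy
      exact fun h => hgT x (Finset.mem_coe.2 hx) (Or.inl h)
  · -- split
    rintro i t ⟨j, k, hjk⟩
    obtain ⟨j, k, hj, hk'⟩ : ∃ j k, indVMap M Z (t j) ∈ YA ∧ indVMap M Z (t k) ∉ YA := by
      by_cases h1 : indVMap M Z (t j) ∈ YA
      · by_cases h2 : indVMap M Z (t k) ∈ YA
        · exact absurd (by simp [h1, h2]) hjk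
        · exact ⟨j, k, h1, h2⟩
      · by_cases h2 : indVMap M Z (t k) ∈ YA
        · exact ⟨k, j, h2, h1⟩
        · exact absurd (by simp [h1, h2]) hjk
    rw [indVMap_rel]
    change indVMap M Z ∘ t ∈ M i ↔ δ i
    have h3 : indVMap M Z (t k) ∈ YB.image g := by
      rcases Finset.mem_union.1 (indVMap_mem M Z (t k)) with h | h
      · exact absurd h hk'
      · exact h
    obtain ⟨y, hy, hy2⟩ := Finset.mem_image.1 h3
    have h4 := hdis _ hj y hy
    by_contra hcon
    apply h4.2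
    refine ⟨h4.1, i, indVMap M Z ∘ t, ⟨j, rfl⟩, ⟨k, hy2.symm⟩, hcon⟩
  · intro x y hxy
    have h1 := ha x
    rw [hxy, ha y] at h1
    exact ha0.1 (indVMap_inj M YA h1.symm)
  · intro i t
    rw [ha0.2 i t, indVMap_rel, indVMap_rel]
    have : indVMap M YA ∘ a0 ∘ t = indVMap M Z ∘ a ∘ t := by
      funext j
      exact (ha (t j)).symm
    rw [this]
  · intro x y hxy
    have h1 := hb x
    rw [hxy, hb y] at h1
    have h2 := hg.1 (Finset.mem_coe.2 (indVMap_mem M YB _))
      (Finset.mem_coe.2 (indVMap_mem M YB _)) h1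
    exact hb0.1 (indVMap_inj M YB h2.symm)
  · intro i t
    rw [hb0.2 i t, indVMap_rel, indVMap_rel,
      hg.2 i (indVMap M YB ∘ b0 ∘ t) (fun j => Finset.mem_coe.2 (indVMap_mem M YB _))]
    have : g ∘ indVMap M YB ∘ b0 ∘ t = indVMap M Z ∘ b ∘ t := by
      funext j
      exact (hb (t j)).symm
    rw [this]
  · intro x
    apply decide_eq_false
    rw [ha, not_not]
    exact indVMap_mem M YA _
  · intro x
    apply decide_eq_true
    rw [hb]
    intro h
    exact (hdis _ h _ (indVMap_mem M YB (b0 x))).1 rfl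

/-- `D` has no nonempty separated part that embeds outside `T` -/
def Anch (M : (i : I) → Set (Fin (ar i) → V)) (δ : I → Prop) (T D : Set V) : Prop :=
  ∀ D' ⊆ D, D'.Nonempty → Sep M δ D D' → ¬ VE M D' Tᶜ

/-- decomposition of a finite set into an anchored part and a part that embeds outside `T` -/
theorem exists_anch (hloc : LocFin M δ) {T : Set V} (hk : Kernel M T)
    (Y : Finset V) : ∃ E : Finset V, E ⊆ Y ∧ Sep M δ Y E ∧ VE M E Tᶜ ∧
      Anch M δ T ((Y : Set V) \ E) := by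
  classical
  have hex : ∃ n, ∃ E : Finset V, E ⊆ Y ∧ Sep M δ Y E ∧ VE M E Tᶜ ∧ E.card = n := by
    refine ⟨0, ∅, Finset.empty_subset _, ?_, ?_, rfl⟩
    · rintro i t _ ⟨j, hj⟩ _
      simp at hj
    · exact ⟨id, ⟨fun x hx => by simp at hx, fun i t _ => Iff.rfl⟩, fun y hy => by simp at hy⟩
  -- take the largest one
  set P : ℕ → Prop := fun n => ∃ E : Finset V, E ⊆ Y ∧ Sep M δ Y E ∧ VE M E Tᶜ ∧ E.card = n
    with hP
  have hbd : ∀ n, P n → n ≤ Y.card := by
    rintro n ⟨E, hE, _, _, rfl⟩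
    exact Finset.card_le_card hE
  obtain ⟨n0, hn0⟩ := hex
  have hmax := Nat.findGreatest_spec (P := P) (hbd n0 hn0) hn0
  have hgr : ∀ n, P n → n ≤ Nat.findGreatest P Y.card := fun n hn =>
    Nat.le_findGreatest (hbd n hn) hn
  obtain ⟨E, hEY, hsep, hE, hcard⟩ := hmax
  refine ⟨E, hEY, hsep, hE, ?_⟩
  intro D' hD' hne hsep' hVE
  have hfin : D'.Finite := (Finset.finite_toSet Y).subset (hD'.trans Set.sdiff_subset)
  set D : Finset V := hfin.toFinset with hD
  have hDc : (D : Set V) = D' := hfin.coe_toFinset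
  have hDE : Disjoint E D := by
    rw [Finset.disjoint_left]
    intro x hx hxD
    have : x ∈ D' := by rw [← hDc]; exact hxD
    exact (hD' this).2 hx
  have hDY : D ⊆ Y := by
    intro x hx
    have : x ∈ D' := by rw [← hDc]; exact hx
    exact (hD' this).1
  have hlt : E.card < (E ∪ D).card := by
    rw [Finset.card_union_of_disjoint hDE]
    have : 0 < D.card := by
      rw [Finset.card_pos]
      obtain ⟨x, hx⟩ := hne
      exact ⟨x, by rw [hD, Set.Finite.mem_toFinset]; exact hx⟩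
    omega
  have hPn : P (E ∪ D).card := by
    refine ⟨E ∪ D, Finset.union_subset hEY hDY, ?_, ?_, rfl⟩
    · rintro i t ht ⟨j, hj⟩ ⟨k, hk'⟩
      rw [Finset.coe_union] at hj hk'
      have hkE : t k ∉ (E : Set V) := fun h => hk' (Or.inl h)
      have hkD : t k ∉ (D : Set V) := fun h => hk' (Or.inr h)
      by_cases h1 : ∃ l, t l ∈ (E : Set V)
      · exact hsep i t ht h1 ⟨k, hkE⟩
      · push Not at h1
        have hjD : t j ∈ D' := by
          rcases hj with h | h
          · exact absurd h (h1 j)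
          · rw [← hDc]; exact h
        refine hsep' i t (fun l => ⟨ht l, h1 l⟩) ⟨j, hjD⟩ ⟨k, ?_⟩
        rw [← hDc]
        exact hkD
    · have hsep2 : Sep M δ ((E ∪ D : Finset V) : Set V) (E : Set V) := by
        intro i t ht h1 h2
        exact hsep i t (fun j => Finset.union_subset hEY hDY (ht j)) h1 h2
      apply sum_of_kernel hloc hk (Finset.finite_toSet _) _ hsep2 hE
      · refine VE.mono hVE ?_ subset_rfl
        rintro x ⟨hx, hxE⟩
        rcases Finset.mem_union.1 (Finset.mem_coe.1 hx) with h | h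
        · exact absurd h hxE
        · rw [← hDc]; exact h
      · intro x hx
        exact Finset.mem_coe.2 (Finset.mem_union_left _ hx)
  have := hgr _ hPn
  omega

/-- the balls around `T` -/
def ball (M : (i : I) → Set (Fin (ar i) → V)) (δ : I → Prop) (T : Set V) : ℕ → Set V
  | 0 => T
  | n + 1 => ball M δ T n ∪ ⋃ v ∈ ball M δ T n, nbr M δ v

theorem ball_finite (hloc : LocFin M δ) {T : Set V} (hT : T.Finite) (n : ℕ) :
    (ball M δ T n).Finite := by
  induction n with
  | zero => exact hT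
  | succ n ih => exact ih.union (ih.biUnion fun v _ => hloc v)

theorem subset_ball (T : Set V) (n : ℕ) : T ⊆ ball M δ T n := by
  induction n with
  | zero => exact subset_rfl
  | succ n ih => exact ih.trans Set.subset_union_left

theorem anch_bounded {T : Set V} {D : Finset V} (hD : Anch M δ T (D : Set V)) {f : V → V}
    (hf : PE M (D : Set V) f) : ∀ x ∈ D, f x ∈ ball M δ T D.card := by
  classical
  let U : ℕ → Finset V := fun n => D.filter (fun x => f x ∈ ball M δ T n)
  have hmono : ∀ n, U n ⊆ U (n + 1) := by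
    intro n x hx
    rw [Finset.mem_filter] at hx ⊢
    exact ⟨hx.1, Or.inl hx.2⟩
  have hstab : ∀ n, U n = U (n + 1) → U n = D := by
    intro n hn
    by_contra hne
    have hsub : U n ⊆ D := Finset.filter_subset _ _
    obtain ⟨z, hzD, hz⟩ : ∃ z ∈ D, z ∉ U n := by
      by_contra h
      push Not at h
      exact hne (Finset.Subset.antisymm hsub h)
    refine hD {x | x ∈ D ∧ f x ∉ ball M δ T n} (fun x hx => hx.1) ⟨z, hzD, fun h => hz ?_⟩
      ?_ ?_
    · exact Finset.mem_filter.2 ⟨hzD, h⟩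
    · rintro i t ht ⟨j, hj⟩ ⟨k, hk⟩
      have hk' : f (t k) ∈ ball M δ T n := by
        by_contra h
        exact hk ⟨ht k, h⟩
      by_contra hcon
      have h1 : f (t j) ∈ nbr M δ (f (t k)) := by
        refine ⟨fun h => hj.2 (h ▸ hk'), i, f ∘ t, ⟨k, rfl⟩, ⟨j, rfl⟩, ?_⟩
        rw [← hf.2 i t ht]
        exact hcon
      have h2 : t j ∈ U (n + 1) :=
        Finset.mem_filter.2 ⟨hj.1, Or.inr (Set.mem_biUnion hk' h1)⟩
      rw [← hn] at h2
      exact hj.2 (Finset.mem_filter.1 h2).2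
    · refine ⟨f, ⟨hf.1.mono (fun x hx => hx.1), fun i t ht => hf.2 i t fun j => (ht j).1⟩, ?_⟩
      intro x hx h
      exact hx.2 (subset_ball T n h)
  have hcard : ∀ n, U n = D ∨ n ≤ (U n).card := by
    intro n
    induction n with
    | zero => exact Or.inr (Nat.zero_le _)
    | succ n ih =>
      rcases ih with h | h
      · left
        exact Finset.Subset.antisymm (Finset.filter_subset _ _) (h ▸ hmono n)
      · by_cases he : U n = U (n + 1)
        · left
          rw [← he]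
          exact hstab n he
        · right
          have := Finset.card_lt_card (Finset.ssubset_iff_subset_ne.2 ⟨hmono n, he⟩)
          omega
  have hfull : U D.card = D := by
    rcases hcard D.card with h | h
    · exact h
    · exact Finset.eq_of_subset_of_card_le (Finset.filter_subset _ _) h
  intro x hx
  rw [← hfull] at hx
  exact (Finset.mem_filter.1 hx).2

theorem VE_of_emb {Y Z : Finset V} (h : Emb (indV M Y) (indV M Z)) :
    VE M (Y : Set V) (Z : Set V) := by
  apply VE_of_indV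
  refine (ageOn_isAge M (Z : Set V)).2.1 _ _ ?_ h
  exact indV_mem_ageOn M ⟨id, ⟨fun x _ y _ h => h, fun i t _ => Iff.rfl⟩, fun y hy => hy⟩

/-- **Main theorem.** -/
theorem noAntichain_of_locFin (hloc : LocFin M δ) (hwf : SubagesWF (ageOn M Set.univ)) :
    NoAntichain (ageOn M Set.univ) := by
  classical
  obtain ⟨T, hT, hk⟩ := exists_kernel hwf
  rintro ⟨s, hs, hanti⟩
  choose Y _ hY1 hY2 using fun n => exists_indV_of_mem M (hs n)
  have hYanti : ∀ m n, m ≠ n → ¬ VE M (Y m : Set V) (Y n : Set V) := by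
    intro m n hmn h
    exact hanti m n hmn (((hY1 m).trans (emb_of_VE M h)).trans (hY2 n))
  choose E hEY hEsep hE hEanch using fun n => exists_anch hloc hk (Y n)
  have h0 : NoAntichain (ageOn M Tᶜ) := noAntichain_of_sumClosed (ageOn_isAge M _)
    (sumClosed_kernel hloc hk) (hwf.mono (ageOn_mono M (Set.subset_univ _)))
  obtain ⟨g, hg, hgE⟩ := exists_emb_subseq h0 (fun n => indV M (E n))
    (fun n => indV_mem_ageOn M (hE n))
  let D : ℕ → Finset V := fun n => Y (g n) \ E (g n)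
  have hDanch : ∀ n, Anch M δ T (D n : Set V) := by
    intro n
    have := hEanch (g n)
    rw [← Finset.coe_sdiff] at this
    exact this
  have hDanti : ∀ m n, m < n → ¬ VE M (D m : Set V) (D n : Set V) := by
    rintro m n hmn ⟨f, hf, hfD⟩
    obtain ⟨e, he, heE⟩ := VE_of_emb (hgE m n hmn)
    apply hYanti (g m) (g n) (hg hmn).ne
    have hf' : PE M ((Y (g m) : Set V) \ (E (g m) : Set V)) f := by
      rw [← Finset.coe_sdiff]
      exact hf
    have hfD' : ∀ y ∈ (Y (g m) : Set V) \ (E (g m) : Set V),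
        f y ∈ (Y (g n) : Set V) \ (E (g n) : Set V) := by
      intro y hy
      rw [← Finset.coe_sdiff] at hy ⊢
      exact hfD y hy
    obtain ⟨h, hh, hh1, hh2⟩ := glue (hEsep (g m)) hf' he
      (fun x hx y hy hxy => (hfD' y hy).2 (hxy ▸ heE x hx)) (by
        intro i t ht hj hk'
        refine hEsep (g n) i t ?_ ?_ ?_
        · intro l
          rcases ht l with ⟨x, hx, hl⟩ | ⟨x, hx, hl⟩
          · rw [← hl]
            exact hEY (g n) (heE x hx)
          · rw [← hl]
            exact (hfD' x hx).1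
        · obtain ⟨j, x, hx, hj⟩ := hj
          exact ⟨j, hj ▸ heE x hx⟩
        · obtain ⟨k, x, hx, hk'⟩ := hk'
          exact ⟨k, hk' ▸ (hfD' x hx).2⟩)
    refine ⟨h, hh, fun y hy => ?_⟩
    by_cases hyE : y ∈ (E (g m) : Set V)
    · rw [hh1 y hyE]
      exact hEY (g n) (heE y hyE)
    · rw [hh2 y hyE]
      exact (hfD' y ⟨hy, hyE⟩).1
  -- all embeddings of `D n` take values in a finite set
  let F : ℕ → Set V := fun n => ball M δ T (D n).card
  have hF : ∀ n, (F n).Finite := fun n => ball_finite hloc hT _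
  have hFe : ∀ n (f : V → V), PE M (D n : Set V) f → ∀ x ∈ D n, f x ∈ F n :=
    fun n f hf => anch_bounded (hDanch n) hf
  -- the limit set
  let L : Set V := {v | ∀ᶠ n in (Filter.hyperfilter ℕ : Filter ℕ), v ∈ D n}
  have hstab : ∀ G : Set V, G.Finite →
      ∀ᶠ n in (Filter.hyperfilter ℕ : Filter ℕ), ∀ v ∈ G, (v ∈ D n ↔ v ∈ L) := by
    intro G hG
    rw [Filter.eventually_all_finite hG]
    intro v _
    by_cases hv : v ∈ L
    · have hv' : ∀ᶠ n in (Filter.hyperfilter ℕ : Filter ℕ), v ∈ D n := hv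
      exact hv'.mono fun n hn => ⟨fun _ => hv, fun _ => hn⟩
    · have hv' : ¬ ∀ᶠ n in (Filter.hyperfilter ℕ : Filter ℕ), v ∈ D n := hv
      rw [← Ultrafilter.eventually_not] at hv'
      exact hv'.mono fun n hn => ⟨fun h => absurd h hn, fun h => absurd h hv⟩
  have hinf : ∀ N : ℕ, ∀ᶠ n in (Filter.hyperfilter ℕ : Filter ℕ), N < n := fun N =>
    (Filter.hyperfilter_le_cofinite.trans Nat.cofinite_eq_atTop.le) (Filter.eventually_gt_atTop N)
  obtain ⟨φ, _, hφ⟩ := exists_seq_of_forall_finset_exists (fun _ : ℕ => True)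
    (fun a b => a < b ∧ ∀ v ∈ F a, (v ∈ D b ↔ v ∈ L)) (by
      intro S _
      have h1 : ∀ᶠ n in (Filter.hyperfilter ℕ : Filter ℕ), ∀ a ∈ (S : Set ℕ),
          (a < n ∧ ∀ v ∈ F a, (v ∈ D n ↔ v ∈ L)) := by
        rw [Filter.eventually_all_finite (Finset.finite_toSet S)]
        intro a _
        exact (hinf a).and (hstab (F a) (hF a))
      obtain ⟨n, hn⟩ := h1.exists
      exact ⟨n, trivial, fun a ha => hn a (Finset.mem_coe.2 ha)⟩)
  -- the strictly decreasing sequence of ages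
  let X : ℕ → Set V := fun n => ⋃ j ∈ {j | n ≤ j}, (D (φ j) : Set V)
  apply hwf
  refine ⟨fun n => ageOn M (X n), fun k => ⟨ageOn_mono M (Set.subset_univ _), ageOn_isAge M _⟩,
    fun n => ⟨?_, ?_⟩⟩
  · apply ageOn_mono
    apply Set.biUnion_subset_biUnion_left
    intro j hj
    have hj' : n + 1 ≤ j := hj
    exact (Nat.le_succ n).trans hj'
  · intro hsub
    have h1 : indV M (D (φ n)) ∈ ageOn M (X n) := by
      apply indV_mem_ageOn
      refine ⟨id, ⟨fun x _ y _ h => h, fun i t _ => Iff.rfl⟩, fun y hy => ?_⟩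
      exact Set.mem_biUnion (show n ∈ {j | n ≤ j} from le_refl n) hy
    obtain ⟨f, hf, hfX⟩ := VE_of_indV M (hsub h1)
    refine hDanti (φ n) (φ (n + 1)) (hφ n (n + 1) (Nat.lt_succ_self n)).1 ⟨f, hf, ?_⟩
    intro y hy
    have h2 := hFe (φ n) f hf y (Finset.mem_coe.1 hy)
    have h3 := hfX y hy
    obtain ⟨j, hj, h4⟩ := Set.mem_iUnion₂.1 h3
    have hj' : n + 1 ≤ j := hj
    have h5 : f y ∈ L := ((hφ n j (by omega)).2 _ h2).1 (Finset.mem_coe.1 h4)
    exact Finset.mem_coe.2 (((hφ n (n + 1) (Nat.lt_succ_self n)).2 _ h2).2 h5)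

theorem ageOn_univ (M : (i : I) → Set (Fin (ar i) → V)) : ageOn M Set.univ = ageOf M := by
  ext A
  constructor
  · rintro ⟨f, hf, _, hr⟩
    exact ⟨f, hf, hr⟩
  · rintro ⟨f, hf, hr⟩
    exact ⟨f, hf, fun _ => trivial, hr⟩

theorem noAntichain_of_locallyFinite {M : (i : I) → Set (Fin (ar i) → V)} {δ : I → Prop}
    (hloc : LocallyFinite M δ) (hwf : SubagesWF (ageOf M)) : NoAntichain (ageOf M) := by
  rw [← ageOn_univ] at hwf ⊢
  exact noAntichain_of_locFin (δ := δ) hloc hwf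

end OnV

end Pool.Agent.Lib.MP_4fb322_lc_h70
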